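import Pool.Agent.P.MP_6e435d_co.G.Game

/-!
The attacker-defender gadget: attackers, targets, protectors and guard paths.
-/

set_option autoImplicit false
set_option linter.dupNamespace false

namespace Pool.Agent.P.MP_6e435d_co.G

/-- Vertices: attackers, targets, protectors, guard path cells and isolated vertices. -/
inductive Vx
  | a (i : ℕ)
  | t (i : ℕ × ℕ)
  | p (i : ℕ × ℕ)
  | g (i : ℕ × ℕ) (d : ℕ)
  | j (i : ℕ × ℕ × ℕ)
  deriving DecidableEq

/-- Data of the gadget. -/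
structure AD where
  /-- targets -/
  TT : Finset (ℕ × ℕ)
  /-- protectors -/
  PP : Finset (ℕ × ℕ)
  /-- protection relation -/
  prot : ℕ × ℕ → ℕ × ℕ → Prop
  /-- length of the guard paths -/
  M : ℕ

namespace AD

variable (D : AD)

/-- Directed edges. -/
def E : Vx → Vx → Prop
  | .a i, .t t => t ∈ D.TT ∧ t.1 = i
  | .t t, .p p => t ∈ D.TT ∧ D.prot t p
  | .a i, .g t d => t ∈ D.TT ∧ t.1 = i ∧ d = 0
  | .g t d, .g s e => t ∈ D.TT ∧ s = t ∧ e = d + 1 ∧ e ≤ D.M
  | _, _ => False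

/-- The graph. -/
def G : SimpleGraph Vx where
  Adj u v := D.E u v ∨ D.E v u
  symm := ⟨fun _ _ h => h.symm⟩
  loopless := ⟨fun u => by cases u <;> simp [E]⟩

variable {D}

theorem adj_a {i : ℕ} {v : Vx} :
    D.G.Adj (.a i) v ↔ ∃ t ∈ D.TT, t.1 = i ∧ (v = .t t ∨ v = .g t 0) := by
  constructor
  · intro h
    cases v <;> simp only [G, E, or_false] at h
    · exact ⟨_, h.1, h.2, Or.inl rfl⟩
    · obtain ⟨h, h', rfl⟩ := h
      exact ⟨_, h, h', Or.inr rfl⟩
  · rintro ⟨t, h, h', rfl | rfl⟩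
    · exact Or.inl ⟨h, h'⟩
    · exact Or.inl ⟨h, h', rfl⟩

theorem adj_t {t : ℕ × ℕ} {v : Vx} :
    D.G.Adj (.t t) v ↔ t ∈ D.TT ∧ (v = .a t.1 ∨ ∃ p, D.prot t p ∧ v = .p p) := by
  cases v <;> simp [G, E, eq_comm]

theorem adj_p {p : ℕ × ℕ} {v : Vx} :
    D.G.Adj (.p p) v ↔ ∃ t ∈ D.TT, D.prot t p ∧ v = .t t := by
  cases v <;> simp [G, E]

theorem adj_g {t : ℕ × ℕ} {d : ℕ} {v : Vx} :
    D.G.Adj (.g t d) v ↔ t ∈ D.TT ∧ ((d = 0 ∧ v = .a t.1) ∨ (d + 1 ≤ D.M ∧ v = .g t (d + 1)) ∨
      ∃ e, d = e + 1 ∧ d ≤ D.M ∧ v = .g t e) := by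
  cases v with
  | g s e =>
    simp only [G, E, reduceCtorEq, and_false, false_or, Vx.g.injEq]
    constructor
    · rintro (⟨h, rfl, rfl, h'⟩ | ⟨h, rfl, rfl, h'⟩)
      · exact ⟨h, Or.inl ⟨h', rfl, rfl⟩⟩
      · exact ⟨h, Or.inr ⟨e, rfl, h', rfl, rfl⟩⟩
    · rintro ⟨h, ⟨h', rfl, rfl⟩ | ⟨e, rfl, h', rfl, rfl⟩⟩
      · exact Or.inl ⟨h, rfl, rfl, h'⟩
      · exact Or.inr ⟨h, rfl, rfl, h'⟩
  | a i =>
    simp only [G, E, reduceCtorEq, and_false, exists_false, or_false, false_or, Vx.a.injEq]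
    constructor
    · rintro ⟨h, rfl, rfl⟩
      exact ⟨h, rfl, rfl⟩
    · rintro ⟨h, rfl, rfl⟩
      exact ⟨h, rfl, rfl⟩
  | _ => simp [G, E]

theorem adj_j {i : ℕ × ℕ × ℕ} {v : Vx} : ¬ D.G.Adj (.j i) v := by
  cases v <;> simp [G, E]

/-- A red walker inside a guard path. -/
structure Sea (D : AD) (t : ℕ × ℕ) (d : ℕ) (f : Vx → Option Bool) (O : Finset Vx) : Prop where
  here : f (.g t d) = some false
  mem : Vx.g t d ∈ O
  ahead : ∀ e, d < e → e ≤ D.M → f (.g t e) = some true
  behind : ∀ v, D.G.Adj (.g t d) v → v ≠ .g t (d + 1) → f v = none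
  reds : ∀ u v, D.G.Adj u v → f u = some false → u ∈ O

theorem Sea.nb {t : ℕ × ℕ} {d : ℕ} {f : Vx → Option Bool} {O : Finset Vx} (h : Sea D t d f O)
    {e : ℕ} (he : d < e) {v : Vx} (a : D.G.Adj (.g t e) v) (hv : f v = some false) :
    v = .g t d := by
  obtain ⟨-, ⟨b, -⟩ | ⟨b, rfl⟩ | ⟨c, rfl, b, rfl⟩⟩ := adj_g.1 a
  · omega
  · rw [h.ahead _ (by omega) b] at hv
    simp at hv
  · by_cases hc : c = d
    · rw [hc]
    · rw [h.ahead _ (by omega) (by omega)] at hv
      simp at hv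

theorem Sea.left {t : ℕ × ℕ} {d : ℕ} {f : Vx → Option Bool} {O : Finset Vx} (h : Sea D t d f O)
    {u v : Vx} (a : D.G.Adj u v) (hu : f u = some true) (hv : f v = some false)
    (hne : v ≠ .g t d) : Sea D t d (mv f u v) (O.erase v) := by
  refine ⟨?_, Finset.mem_erase.2 ⟨hne.symm, h.mem⟩, fun e he he' => ?_, fun w hw hw' => ?_,
    fun x y hxy hx => ?_⟩
  · have : Vx.g t d ≠ u := by
      rintro rfl
      rw [h.here] at hu
      simp at hu
    rw [mv_apply, if_neg hne.symm, if_neg this, h.here]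
  · have h1 : Vx.g t e ≠ u := by
      rintro rfl
      exact hne (h.nb he a hv)
    rw [mv_apply]
    split_ifs
    · exact hu
    · exact h.ahead e he he'
  · have := h.behind w hw hw'
    rw [mv_apply]
    split_ifs with h1 h2
    · rw [h1, hv] at this
      simp at this
    · rfl
    · exact this
  · rw [mv_apply] at hx
    split_ifs at hx with h1 h2
    · rw [hu] at hx
      simp at hx
    · exact Finset.mem_erase.2 ⟨h1, h.reds x y hxy hx⟩

theorem Sea.right {t : ℕ × ℕ} {d : ℕ} {f : Vx → Option Bool} {O : Finset Vx} (h : Sea D t d f O)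
    {u v : Vx} (a : D.G.Adj u v) (hu : f u = some false) (hv : f v = some true) :
    ∃ d' ≤ d + 1, Sea D t d' (mv f u v) (insert v (O.erase u)) := by
  have hreds : ∀ x y, D.G.Adj x y → mv f u v x = some false → x ∈ insert v (O.erase u) := by
    intro x y hxy hx
    rw [mv_apply] at hx
    split_ifs at hx with h1 h2
    · exact Finset.mem_insert.2 (Or.inl h1)
    · exact Finset.mem_insert_of_mem (Finset.mem_erase.2 ⟨h2, h.reds x y hxy hx⟩)
  by_cases hne : u = .g t d
  · subst hne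
    have hv' : v = .g t (d + 1) := by
      by_contra hc
      rw [h.behind v a hc] at hv
      simp at hv
    subst hv'
    refine ⟨d + 1, le_rfl, by simp [mv_apply, hu], by simp, fun e he he' => ?_, fun w hw hw' => ?_,
      hreds⟩
    · rw [mv_apply, if_neg (by simp; omega), if_neg (by simp; omega)]
      exact h.ahead e (by omega) he'
    · obtain ⟨-, ⟨b, -⟩ | ⟨b, rfl⟩ | ⟨c, e, b, rfl⟩⟩ := adj_g.1 hw
      · omega
      · exact absurd rfl hw'
      · obtain rfl : c = d := by omega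
        simp [mv_apply]
  · have h0 : Vx.g t d ≠ v := by
      rintro rfl
      rw [h.here] at hv
      simp at hv
    refine ⟨d, by omega, ?_, Finset.mem_insert_of_mem (Finset.mem_erase.2 ⟨Ne.symm hne, h.mem⟩),
      fun e he he' => ?_, fun w hw hw' => ?_, hreds⟩
    · rw [mv_apply, if_neg h0, if_neg (Ne.symm hne), h.here]
    · have h1 : Vx.g t e ≠ v := by
        rintro rfl
        exact hne (h.nb he a.symm hu)
      have h2 : Vx.g t e ≠ u := by
        rintro rfl
        rw [h.ahead e he he'] at hu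
        simp at hu
      rw [mv_apply, if_neg h1, if_neg h2]
      exact h.ahead e he he'
    · have := h.behind w hw hw'
      rw [mv_apply]
      split_ifs with h1 h2
      · rw [h1, hv] at this
        simp at this
      · rfl
      · exact this

theorem sea {t : ℕ × ℕ} (ht : t ∈ D.TT) (k : ℕ) : ∀ (d : ℕ) (f : Vx → Option Bool)
    (O : Finset Vx), Sea D t d f O → O.card ≤ k → d + k ≤ D.M → Res D.G f true true := by
  induction k with
  | zero =>
    intro d f O h hc _
    have := Finset.card_pos.2 ⟨_, h.mem⟩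
    omega
  | succ k ih =>
    intro d f O h hc hd
    by_cases hx : ∃ u v, D.G.Adj u v ∧ f u = some true ∧ f v = some false ∧ v ≠ .g t d
    · obtain ⟨u, v, a, hu, hv, hne⟩ := hx
      have h1 := h.left a hu hv hne
      have c1 := Finset.card_erase_of_mem (h.reds v u a.symm hv)
      refine Res.win _ _ u v a hu hv (Res.lose _ _ fun x y b hx hy => ?_)
      obtain ⟨d', hd', h2⟩ := h1.right b hx hy
      have c2 := Finset.card_erase_of_mem (h1.reds x y b hx)
      have c3 := Finset.card_insert_le y ((O.erase v).erase x)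
      have c4 := Finset.card_pos.2 ⟨_, h1.mem⟩
      exact ih d' _ _ h2 (by omega) (by omega)
    · have a : D.G.Adj (.g t (d + 1)) (.g t d) :=
        adj_g.2 ⟨ht, Or.inr (Or.inr ⟨d, rfl, by omega, rfl⟩)⟩
      have hu := h.ahead (d + 1) (by omega) (by omega)
      refine Res.win _ _ _ _ a hu h.here (Res.lose _ _ fun x y b hx' hy => ?_)
      exfalso
      rw [mv_apply] at hx' hy
      split_ifs at hx' with h1 h2
      · rw [hu] at hx'
        simp at hx'
      · split_ifs at hy with h3 h4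
        · subst h3
          rw [h.behind x b.symm h2] at hx'
          simp at hx'
        · exact hx ⟨y, x, b.symm, hy, hx', h1⟩

end AD

end Pool.Agent.P.MP_6e435d_co.G
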