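import Pool.Agent.P.MP_6e435d_co.G.AD

/-!
Quiet positions of the gadget, in which Right to move loses, and the abstract game.
-/

set_option autoImplicit false
set_option linter.dupNamespace false

namespace Pool.Agent.P.MP_6e435d_co.G

open Function

namespace AD

variable {D : AD}

/-- Quiet positions. -/
structure Base (D : AD) (f : Vx → Option Bool) : Prop where
  att : ∀ i, f (.a i) ≠ some false
  pro : ∀ p, f (.p p) ≠ some true
  tar : ∀ t, f (.t t) = some true → f (.a t.1) = none ∧ ∀ p, D.prot t p → f (.p p) = none
  path : ∀ t d, f (.g t d) ≠ some false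
  guard : ∀ t d, (d ≠ 0 ∨ f (.t t) ≠ none) → f (.g t d) = some true

theorem Base.vac {f : Vx → Option Bool} (h : Base D f) (v : Vx)
    (hv : ∀ t d, v = .g t d → d = 0 ∧ f (.t t) = none) : Base D (update f v none) := by
  refine ⟨fun i => ?_, fun p => ?_, fun t ht => ?_, fun t d => ?_, fun t d hd => ?_⟩
  · rw [update_apply]
    split_ifs
    · simp
    · exact h.att i
  · rw [update_apply]
    split_ifs
    · simp
    · exact h.pro p
  · rw [update_apply] at ht
    split_ifs at ht
    obtain ⟨a, b⟩ := h.tar t ht
    refine ⟨?_, fun p hp => ?_⟩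
    · rw [update_apply, a, ite_self]
    · rw [update_apply, b p hp, ite_self]
  · rw [update_apply]
    split_ifs
    · simp
    · exact h.path t d
  · have hd' : d ≠ 0 ∨ f (.t t) ≠ none := by
      refine hd.imp id fun a b => a ?_
      rw [update_apply, b, ite_self]
    rw [update_apply, if_neg, h.guard t d hd']
    intro e
    obtain ⟨a, b⟩ := hv t d e.symm
    exact hd'.elim (fun c => c a) fun c => c b

/-- A target and its first guard leave the board. -/
def kill (f : Vx → Option Bool) (t : ℕ × ℕ) : Vx → Option Bool :=
  update (update f (.t t) none) (.g t 0) none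

theorem Base.kill {f : Vx → Option Bool} (h : Base D f) (t : ℕ × ℕ) : Base D (kill f t) := by
  refine (h.vac _ (by simp)).vac _ fun s d e => ?_
  simp only [Vx.g.injEq] at e
  obtain ⟨rfl, rfl⟩ := e
  simp

/-- The number of occupied targets. -/
def mu (D : AD) (f : Vx → Option Bool) : ℕ := (D.TT.filter fun t => f (.t t) ≠ none).card

theorem mu_kill {f : Vx → Option Bool} {t : ℕ × ℕ} (ht : t ∈ D.TT) (h : f (.t t) = some false) :
    D.mu (kill f t) < D.mu f := by
  refine Finset.card_lt_card ⟨fun s hs => ?_, fun hs => ?_⟩
  · simp only [Finset.mem_filter, kill, update_apply, reduceCtorEq, if_false] at hs ⊢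
    refine ⟨hs.1, fun e => hs.2 ?_⟩
    rw [e, ite_self]
  · have := hs (Finset.mem_filter.2 ⟨ht, by simp [h]⟩)
    simp [kill] at this

theorem mv_kill {f : Vx → Option Bool} {t : ℕ × ℕ} (h1 : f (.a t.1) = some true)
    (h2 : f (.g t 0) = some true) :
    mv (mv f (.t t) (.a t.1)) (.g t 0) (.a t.1) = kill f t := by
  funext v
  simp only [mv_apply, kill, update_apply, reduceCtorEq, if_false]
  split_ifs with a b c d e <;> simp_all

theorem adj_guard {t : ℕ × ℕ} (ht : t ∈ D.TT) : D.G.Adj (.g t 0) (.a t.1) :=
  adj_g.2 ⟨ht, Or.inl ⟨rfl, rfl⟩⟩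

theorem Base.move {f : Vx → Option Bool} (h : Base D f) {u v : Vx} (a : D.G.Adj u v)
    (hu : f u = some false) (hv : f v = some true) : ∃ t ∈ D.TT, u = .t t ∧ v = .a t.1 := by
  cases u with
  | a i => exact absurd hu (h.att i)
  | t t =>
    obtain ⟨ht, rfl | ⟨p, -, rfl⟩⟩ := adj_t.1 a
    · exact ⟨t, ht, rfl, rfl⟩
    · exact absurd hv (h.pro p)
  | p p =>
    obtain ⟨t, -, b, rfl⟩ := adj_p.1 a
    rw [(h.tar t hv).2 p b] at hu
    simp at hu
  | g t d => exact absurd hu (h.path t d)
  | j i => exact absurd a adj_j

theorem zug (k : ℕ) : ∀ f : Vx → Option Bool, Base D f → D.mu f < k → Res D.G f false false := by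
  induction k with
  | zero => intro f _ h; omega
  | succ k ih =>
    intro f h hk
    refine Res.lose _ _ fun u v a hu hv => ?_
    obtain ⟨t, ht, rfl, rfl⟩ := h.move a hu hv
    have hg := h.guard t 0 (Or.inr (by simp [hu]))
    refine Res.win _ _ _ _ (adj_guard ht) (by simp [mv_apply, hg]) (by simp [mv_apply, hu]) ?_
    rw [mv_kill hv hg]
    have := mu_kill ht hu
    exact ih _ (h.kill t) (by omega)

theorem Base.loses {f : Vx → Option Bool} (h : Base D f) : Res D.G f false false :=
  zug _ f h (Nat.lt_succ_self _)

/-- The size condition on the guard paths. -/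
def Good (D : AD) : Prop :=
  (∀ t ∈ D.TT, ∀ p, D.prot t p → p ∈ D.PP) ∧ D.TT.card + D.PP.card + 1 ≤ D.M

theorem raid (hD : D.Good) {t0 p : ℕ × ℕ} (h0 : t0 ∈ D.TT) (k : ℕ) :
    ∀ f : Vx → Option Bool, Base D f → D.mu f < k → f (.a t0.1) = some true →
      f (.p p) = some false → f (.t t0) = none → f (.g t0 0) = some true →
      Res D.G (update (update f (.a t0.1) (some false)) (.p p) (some true)) false false := by
  induction k with
  | zero => intro f _ h; omega
  | succ k ih =>
    intro f h hk ha hp ht hg
    refine Res.lose _ _ fun u v a hu hv => ?_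
    cases u with
    | a i =>
      have hi : i = t0.1 := by
        by_contra hc
        simp only [update_apply, reduceCtorEq, if_false, Vx.a.injEq, hc] at hu
        exact h.att i hu
      subst hi
      obtain ⟨t, ht', e, rfl | rfl⟩ := adj_a.1 a
      · simp only [update_apply, reduceCtorEq, if_false] at hv
        have := (h.tar t hv).1
        rw [e, ha] at this
        simp at this
      · refine sea ht' _ 0 _ (insert (.g t 0) (D.TT.image Vx.t ∪ D.PP.image Vx.p))
          ⟨by simp [mv_apply], by simp, fun e he _ => ?_, fun w hw hw' => ?_,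
            fun x y hxy hx => ?_⟩ le_rfl ?_
        · simp only [mv_apply, update_apply, reduceCtorEq, if_false, Vx.g.injEq, he.ne',
            and_false]
          exact h.guard t e (Or.inl he.ne')
        · obtain ⟨-, ⟨-, rfl⟩ | ⟨b, rfl⟩ | ⟨c, b, -⟩⟩ := adj_g.1 hw
          · simp [mv_apply, e]
          · exact absurd rfl hw'
          · omega
        · cases x with
          | a i =>
            simp only [mv_apply, update_apply, reduceCtorEq, if_false] at hx
            split_ifs at hx
            exact absurd hx (h.att i)
          | t s => simp [(adj_t.1 hxy).1]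
          | p s =>
            obtain ⟨r, b, c, -⟩ := adj_p.1 hxy
            simp [hD.1 r b s c]
          | g s d =>
            simp only [mv_apply, update_apply, reduceCtorEq, if_false] at hx
            split_ifs at hx with b
            · simp [b]
            · exact absurd hx (h.path s d)
          | j i => exact absurd hxy adj_j
        · have c1 := Finset.card_insert_le (Vx.g t 0) (D.TT.image Vx.t ∪ D.PP.image Vx.p)
          have c2 := Finset.card_union_le (D.TT.image Vx.t) (D.PP.image Vx.p)
          have c3 := Finset.card_image_le (s := D.TT) (f := Vx.t)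
          have c4 := Finset.card_image_le (s := D.PP) (f := Vx.p)
          have := hD.2
          omega
    | t t =>
      simp only [update_apply, reduceCtorEq, if_false] at hu
      have hne : t ≠ t0 := by
        rintro rfl
        rw [ht] at hu
        simp at hu
      obtain ⟨ht', rfl | ⟨s, b, rfl⟩⟩ := adj_t.1 a
      · have hi : t.1 ≠ t0.1 := by
          intro e
          simp [e] at hv
        simp only [update_apply, reduceCtorEq, if_false, Vx.a.injEq, hi] at hv
        have hg' := h.guard t 0 (Or.inr (by simp [hu]))
        refine Res.win _ _ _ _ (adj_guard ht') (by simp [mv_apply, hg']) (by simp [mv_apply, hu]) ?_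
        rw [mv_kill (by simpa [hi] using hv) (by simpa using hg')]
        have e : kill (update (update f (.a t0.1) (some false)) (.p p) (some true)) t =
            update (update (kill f t) (.a t0.1) (some false)) (.p p) (some true) := by
          funext w
          simp only [kill, update_apply]
          split_ifs <;> simp_all
        rw [e]
        have := mu_kill ht' hu
        exact ih _ (h.kill t) (by omega) (by simpa [kill] using ha) (by simpa [kill] using hp)
          (by simp [kill, update_apply, ht]) (by simp [kill, hne.symm, hg])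
      · have hs : s = p := by
          by_contra hc
          simp only [update_apply, reduceCtorEq, if_false, Vx.p.injEq, hc] at hv
          exact h.pro s hv
        subst hs
        refine Res.win _ _ _ _ (adj_guard h0) (by simp [mv_apply, hg]) (by simp [mv_apply]) ?_
        have e : mv (mv (update (update f (.a t0.1) (some false)) (.p s) (some true)) (.t t) (.p s))
            (.g t0 0) (.a t0.1) = update (update f (.t t) none) (.g t0 0) none := by
          funext w
          simp only [mv_apply, update_apply, reduceCtorEq, if_false]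
          split_ifs <;> simp_all
        rw [e]
        refine Base.loses ((h.vac _ (by simp)).vac _ fun r d e => ?_)
        simp only [Vx.g.injEq] at e
        obtain ⟨rfl, rfl⟩ := e
        simp [update_apply, ht]
    | p s =>
      obtain ⟨t, -, b, rfl⟩ := adj_p.1 a
      simp only [update_apply, reduceCtorEq, if_false] at hu hv
      split_ifs at hu
      · simp at hu
      · rw [(h.tar t hv).2 s b] at hu
        simp at hu
    | g t d =>
      simp only [update_apply, reduceCtorEq, if_false] at hu
      exact absurd hu (h.path t d)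
    | j i => exact absurd a adj_j

/-- Clean positions: the attackers in `U` and the protectors in `C` have been used. -/
def cl (U : Finset ℕ) (C : Finset (ℕ × ℕ)) : Vx → Option Bool
  | .a i => if i ∈ U then none else some true
  | .t _ => some false
  | .p p => if p ∈ C then none else some false
  | .g _ _ => some true
  | .j _ => some true

theorem base_cl (U : Finset ℕ) (C : Finset (ℕ × ℕ)) : Base D (cl U C) := by
  refine ⟨fun i => ?_, fun p => ?_, fun t ht => ?_, fun t d => ?_, fun t d _ => rfl⟩
  · simp only [cl]
    split_ifs <;> simp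
  · simp only [cl]
    split_ifs <;> simp
  · simp [cl] at ht
  · simp [cl]

theorem mv_cl {U : Finset ℕ} {C : Finset (ℕ × ℕ)} {t p : ℕ × ℕ} (hp : p ∉ C) :
    mv (mv (cl U C) (.a t.1) (.t t)) (.p p) (.t t) = cl (insert t.1 U) (insert p C) := by
  funext v
  cases v <;> simp [mv_apply, cl, hp]
  all_goals split_ifs <;> simp_all

theorem right_wins (I : Finset ℕ → Finset (ℕ × ℕ) → Prop)
    (hI : ∀ U C, I U C → ∀ t ∈ D.TT, t.1 ∉ U →
      ∃ p, p ∉ C ∧ D.prot t p ∧ I (insert t.1 U) (insert p C)) (k : ℕ) :
    ∀ U C, I U C → (D.TT.filter fun t => t.1 ∉ U).card < k → Res D.G (cl U C) true false := by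
  induction k with
  | zero => intro U C _ h; omega
  | succ k ih =>
    intro U C h hk
    refine Res.lose _ _ fun u v a hu hv => ?_
    cases u with
    | a i =>
      obtain ⟨t, ht, rfl, rfl | rfl⟩ := adj_a.1 a
      · have hU : t.1 ∉ U := fun e => by simp [cl, e] at hu
        obtain ⟨p, h1, h2, h3⟩ := hI U C h t ht hU
        refine Res.win _ _ (.p p) (.t t) (adj_p.2 ⟨t, ht, h2, rfl⟩) (by simp [mv_apply, cl, h1])
          (by simp [mv_apply, cl, hU]) ?_
        rw [mv_cl h1]
        refine ih _ _ h3 (lt_of_lt_of_le (Finset.card_lt_card ⟨fun s hs => ?_, fun hs => ?_⟩)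
          (Nat.lt_succ_iff.1 hk))
        · simp only [Finset.mem_filter, Finset.mem_insert, not_or] at hs ⊢
          exact ⟨hs.1, hs.2.2⟩
        · have := hs (Finset.mem_filter.2 ⟨ht, hU⟩)
          simp at this
      · simp [cl] at hv
    | t t => simp [cl] at hu
    | p p =>
      simp only [cl] at hu
      split_ifs at hu
      simp at hu
    | g t d =>
      obtain ⟨-, ⟨-, rfl⟩ | ⟨-, rfl⟩ | ⟨c, -, -, rfl⟩⟩ := adj_g.1 a
      · exact absurd hv ((base_cl (D := D) U C).att _)
      · simp [cl] at hv
      · simp [cl] at hv
    | j i => exact absurd a adj_j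

theorem left_step (hD : D.Good) {U : Finset ℕ} {C : Finset (ℕ × ℕ)} {t : ℕ × ℕ} (ht : t ∈ D.TT)
    (hU : t.1 ∉ U) (h : ∀ p, p ∉ C → D.prot t p → Res D.G (cl (insert t.1 U) (insert p C)) true true) :
    Res D.G (cl U C) true true := by
  refine Res.win _ _ (.a t.1) (.t t) (adj_a.2 ⟨t, ht, rfl, Or.inl rfl⟩) (by simp [cl, hU]) rfl ?_
  by_cases hp : ∃ p, p ∉ C ∧ D.prot t p
  · obtain ⟨p, h1, h2⟩ := hp
    refine Res.lose _ _ fun u v a hu hv => ?_
    cases u with
    | a i =>
      simp only [mv_apply, cl, reduceCtorEq, if_false] at hu
      split_ifs at hu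
      simp at hu
    | t s =>
      have hs : s ≠ t := by
        rintro rfl
        simp [mv_apply, cl, hU] at hu
      obtain ⟨hs', rfl | ⟨r, -, rfl⟩⟩ := adj_t.1 a
      · have h3 : s.1 ≠ t.1 := fun e => by simp [mv_apply, e] at hv
        have h4 : s.1 ∉ U := fun e => by simp [mv_apply, cl, e] at hv
        refine Res.win _ _ (.t t) (.p p) (adj_t.2 ⟨ht, Or.inr ⟨p, h2, rfl⟩⟩)
          (by simp [mv_apply, cl, hU, hs.symm]) (by simp [mv_apply, cl, h1]) ?_
        have e : mv (mv (mv (cl U C) (.a t.1) (.t t)) (.t s) (.a s.1)) (.t t) (.p p) =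
            update (update (update (update (update (cl U C) (.a t.1) none) (.t t) none) (.t s) none)
              (.a s.1) (some false)) (.p p) (some true) := by
          funext w
          simp only [mv_apply, update_apply, reduceCtorEq, if_false, cl, hU, Vx.t.injEq, hs,
            hs.symm, if_true]
          split_ifs <;> simp_all
        rw [e]
        exact raid hD hs' _ _ ((((base_cl U C).vac _ (by simp)).vac _ (by simp)).vac _ (by simp))
          (Nat.lt_succ_self _) (by simp [cl, h3, h4]) (by simp [cl, h1]) (by simp) (by simp [cl])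
      · simp only [mv_apply, cl, reduceCtorEq, if_false] at hv
        split_ifs at hv
        simp at hv
    | p r =>
      obtain ⟨s, -, b, rfl⟩ := adj_p.1 a
      have hs : s = t := by
        by_contra hc
        simp [mv_apply, cl, hc] at hv
      subst hs
      have hr : r ∉ C := fun e => by simp [mv_apply, cl, e] at hu
      rw [mv_cl hr]
      exact h r hr b
    | g s d => simp [mv_apply, cl] at hu
    | j i => exact absurd a adj_j
  · refine Base.loses ⟨fun i => ?_, fun p => ?_, fun s hs => ?_, fun s d => ?_, fun s d _ => ?_⟩
    · simp only [mv_apply, cl, reduceCtorEq, if_false]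
      split_ifs <;> simp
    · simp only [mv_apply, cl, reduceCtorEq, if_false]
      split_ifs <;> simp
    · have e : s = t := by
        by_contra hc
        simp [mv_apply, cl, hc] at hs
      subst e
      refine ⟨by simp [mv_apply], fun p a => ?_⟩
      have : p ∈ C := by
        by_contra hc
        exact hp ⟨p, hc, a⟩
      simp [mv_apply, cl, this]
    · simp [mv_apply, cl]
    · simp [mv_apply, cl]

end AD

end Pool.Agent.P.MP_6e435d_co.G
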