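import Pool.Agent.P.MP_6e435d_co.G.AD2

/-!
A token passing along a chain of attackers.
-/

set_option autoImplicit false
set_option linter.dupNamespace false

namespace Pool.Agent.P.MP_6e435d_co.G

open Function Finset

/-- Data of a chain. -/
structure Ch where
  /-- number of stages -/
  N : ℕ
  /-- default protector -/
  dflt : ℕ → ℕ → ℕ
  /-- allowed values of the next stage -/
  nx : ℕ → ℕ → ℕ → Prop
  /-- literal protectors -/
  lt : ℕ → ℕ → ℕ → Prop
  /-- stage of the literal protectors -/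
  bk : ℕ → ℕ

namespace Ch

variable (c : Ch)

/-- The protection relation. -/
def pr (j r j' r' : ℕ) : Prop :=
  (r = 2 ∧ j' = j ∧ r' = 2) ∨ (r < 2 ∧ ((j' = j ∧ r' = c.dflt j r ∧ j ≠ 0) ∨
    (j' = j + 1 ∧ r' = 2 ∧ j + 1 < c.N) ∨ (j' = j + 1 ∧ r' < 2 ∧ c.nx j r r') ∨
    (j' = c.bk j ∧ r' < 2 ∧ c.lt j r r')))

/-- The gadget of a chain. -/
def ad : AD :=
  ⟨range c.N ×ˢ range 3, range (c.N + 1) ×ˢ range 3, fun t p => c.pr t.1 t.2 p.1 p.2, 6 * c.N + 4⟩

/-- Well-formed chains. -/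
def OK : Prop :=
  (∀ j r, r < 2 → c.dflt j r < 2) ∧ ∀ j < c.N, ∀ r r', c.lt j r r' → c.bk j < j ∧ c.bk j ≠ 0

/-- Right survives with the token at stage `j` and record `val`. -/
def Wn : ℕ → ℕ → (ℕ → ℕ) → Prop
  | 0, _, _ => True
  | m + 1, j, val => ∀ r < 2, (j = 0 ∨ c.dflt j r = val j) →
      (∃ r' < 2, c.lt j r r' ∧ r' ≠ val (c.bk j)) ∨
        ∃ r' < 2, c.nx j r r' ∧ Wn m (j + 1) (update val (j + 1) r')

variable {c}

theorem mem_TT {t : ℕ × ℕ} : t ∈ c.ad.TT ↔ t.1 < c.N ∧ t.2 < 3 := by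
  simp [ad]

theorem good (h : c.OK) : c.ad.Good := by
  refine ⟨fun t ht p hp => ?_, by simp [ad]; omega⟩
  rw [mem_TT] at ht
  simp only [ad, mem_product, mem_range]
  rcases hp with ⟨-, a, b⟩ | ⟨r, ⟨a, b, -⟩ | ⟨a, b, -⟩ | ⟨a, b, -⟩ | ⟨a, b, d⟩⟩
  · omega
  · have := h.1 t.1 _ r
    omega
  · omega
  · omega
  · have := h.2 _ ht.1 _ _ d
    omega

/-- The token is dead. -/
def Safe (c : Ch) (U : Finset ℕ) (C : Finset (ℕ × ℕ)) : Prop :=
  ∀ j < c.N, j ∉ U → j ≠ 0 ∧ ∀ r, (j, r) ∉ C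

/-- The token is at stage `j`. -/
structure Tok (c : Ch) (j : ℕ) (val : ℕ → ℕ) (U : Finset ℕ) (C : Finset (ℕ × ℕ)) : Prop where
  lt : j < c.N
  free : j ∉ U
  wn : c.Wn (c.N - j) j val
  used : ∀ i < j, i ∈ U
  rec' : ∀ i ≤ j, ∀ r, (i, r) ∈ C → r = val i
  esc : (j, 2) ∉ C
  fut : ∀ i, j < i → (∀ r, (i, r) ∉ C) ∨
    (i ∈ U ∧ i < c.N ∧ ((i, 2) ∉ C ∨ ((i, 0) ∉ C ∧ (i, 1) ∉ C)))

theorem Tok.safe {j : ℕ} {val : ℕ → ℕ} {U : Finset ℕ} {C : Finset (ℕ × ℕ)}
    (h : Tok c j val U C) {p : ℕ × ℕ} (hp : p.1 = j ∨ p.1 ∈ U ∨ c.N ≤ p.1) :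
    Safe c (insert j U) (insert p C) := by
  intro i hi hU
  rw [mem_insert, not_or] at hU
  have h1 : j < i := by
    by_contra hc
    exact hU.2 (h.used i (by omega))
  refine ⟨by omega, fun r hr => ?_⟩
  rcases mem_insert.1 hr with rfl | hr
  · rcases hp with a | a | a
    · exact hU.1 a
    · exact hU.2 a
    · exact absurd hi (not_lt.2 a)
  · rcases h.fut i h1 with a | a
    · exact a r hr
    · exact hU.2 a.1

theorem reply (hc : c.OK) (U : Finset ℕ) (C : Finset (ℕ × ℕ))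
    (h : Safe c U C ∨ ∃ j val, Tok c j val U C) (t : ℕ × ℕ) (ht : t ∈ c.ad.TT) (hU : t.1 ∉ U) :
    ∃ p, p ∉ C ∧ c.ad.prot t p ∧ (Safe c (insert t.1 U) (insert p C) ∨
      ∃ j val, Tok c j val (insert t.1 U) (insert p C)) := by
  obtain ⟨i, r⟩ := t
  rw [mem_TT] at ht
  dsimp only at ht hU ⊢
  have hdef : i ≠ 0 → ∃ s, c.pr i r i s ∧ ((r = 2 ∧ s = 2) ∨ (r < 2 ∧ s = c.dflt i r)) := by
    intro h0
    by_cases h2 : r = 2
    · exact ⟨2, Or.inl ⟨h2, rfl, rfl⟩, Or.inl ⟨h2, rfl⟩⟩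
    · exact ⟨_, Or.inr ⟨by omega, Or.inl ⟨rfl, rfl, h0⟩⟩, Or.inr ⟨by omega, rfl⟩⟩
  rcases h with h | ⟨j, val, h⟩
  · obtain ⟨h0, hf⟩ := h i ht.1 hU
    obtain ⟨s, a, -⟩ := hdef h0
    refine ⟨(i, s), hf s, a, Or.inl fun k hk hk' => ?_⟩
    rw [mem_insert, not_or] at hk'
    refine ⟨(h k hk hk'.2).1, fun r' hr' => ?_⟩
    rcases mem_insert.1 hr' with e | e
    · exact hk'.1 (congrArg Prod.fst e)
    · exact (h k hk hk'.2).2 r' e
  · have hij : j ≤ i := by
      by_contra hlt
      exact hU (h.used i (by omega))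
    rcases hij.lt_or_eq with hij | rfl
    · have hf : ∀ r, (i, r) ∉ C := (h.fut i hij).resolve_right fun a => hU a.1
      obtain ⟨s, a, b⟩ := hdef (by omega)
      refine ⟨(i, s), hf s, a, Or.inr ⟨j, val, h.lt, ?_, h.wn,
        fun k hk => mem_insert_of_mem (h.used k hk), fun k hk r' hr' => ?_, ?_, fun k hk => ?_⟩⟩
      · rw [mem_insert, not_or]
        exact ⟨hij.ne, h.free⟩
      · rcases mem_insert.1 hr' with e | e
        · have := congrArg Prod.fst e
          dsimp only at this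
          omega
        · exact h.rec' k hk r' e
      · simp [h.esc, hij.ne]
      · by_cases e : k = i
        · subst e
          refine Or.inr ⟨mem_insert_self _ _, ht.1, ?_⟩
          rcases b with ⟨-, rfl⟩ | ⟨b, rfl⟩
          · exact Or.inr (by simp [hf])
          · have := hc.1 k r b
            exact Or.inl (by simp [hf]; omega)
        · rcases h.fut k hk with d | d
          · exact Or.inl fun r' => by simp [e, d]
          · exact Or.inr ⟨mem_insert_of_mem d.1, d.2.1, by simpa [e] using d.2.2⟩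
    · by_cases h2 : r = 2
      · exact ⟨(j, 2), h.esc, Or.inl ⟨h2, rfl, rfl⟩, Or.inl (h.safe (Or.inl rfl))⟩
      have hr : r < 2 := by omega
      by_cases hot : j = 0 ∨ c.dflt j r = val j
      · have hw := h.wn
        rw [show c.N - j = c.N - (j + 1) + 1 by have := h.lt; omega] at hw
        rcases hw r hr hot with ⟨s, hs, a, b⟩ | ⟨s, hs, a, b⟩
        · have := hc.2 j h.lt _ _ a
          exact ⟨(c.bk j, s), fun e => b (h.rec' _ this.1.le s e),
            Or.inr ⟨hr, Or.inr (Or.inr (Or.inr ⟨rfl, hs, a⟩))⟩,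
            Or.inl (h.safe (Or.inr (Or.inl (h.used _ this.1))))⟩
        · have hp : c.pr j r (j + 1) s := Or.inr ⟨hr, Or.inr (Or.inr (Or.inl ⟨rfl, hs, a⟩))⟩
          rcases h.fut (j + 1) (by omega) with d | ⟨d, e, f | f⟩
          · by_cases g : j + 1 ∈ U ∨ c.N ≤ j + 1
            · exact ⟨(j + 1, s), d s, hp, Or.inl (h.safe (Or.inr g))⟩
            · rw [not_or] at g
              refine ⟨(j + 1, s), d s, hp, Or.inr ⟨j + 1, update val (j + 1) s, by omega,
                by simp [g.1], b, fun k hk => ?_, fun k hk r' hr' => ?_, by simp [d]; omega,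
                fun k hk => ?_⟩⟩
              · by_cases e : k = j
                · simp [e]
                · exact mem_insert_of_mem (h.used k (by omega))
              · rcases mem_insert.1 hr' with e | e
                · simp only [Prod.mk.injEq] at e
                  simp [e.1, e.2]
                · have : k ≠ j + 1 := by
                    rintro rfl
                    exact d r' e
                  rw [update_of_ne this]
                  exact h.rec' k (by omega) r' e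
              · have e : k ≠ j + 1 := by omega
                rcases h.fut k (by omega) with d | d
                · exact Or.inl fun r' => by simp [e, d]
                · exact Or.inr ⟨mem_insert_of_mem d.1, d.2.1, by simpa [e] using d.2.2⟩
          · exact ⟨(j + 1, 2), f, Or.inr ⟨hr, Or.inr (Or.inl ⟨rfl, rfl, e⟩)⟩,
              Or.inl (h.safe (Or.inr (Or.inl d)))⟩
          · refine ⟨(j + 1, s), ?_, hp, Or.inl (h.safe (Or.inr (Or.inl d)))⟩
            interval_cases s
            · exact f.1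
            · exact f.2
      · rw [not_or] at hot
        exact ⟨(j, c.dflt j r), fun e => hot.2 (h.rec' j le_rfl _ e),
          Or.inr ⟨hr, Or.inl ⟨rfl, rfl, hot.1⟩⟩, Or.inl (h.safe (Or.inl rfl))⟩

theorem right_flow (hc : c.OK) (hN : 0 < c.N) {val : ℕ → ℕ} (h : c.Wn c.N 0 val) :
    Res c.ad.G (AD.cl ∅ ∅) true false :=
  AD.right_wins (fun U C => Safe c U C ∨ ∃ j val, Tok c j val U C) (reply hc) _ _ _
    (Or.inr ⟨0, val, hN, by simp, h, by simp, by simp, by simp, by simp⟩) (Nat.lt_succ_self _)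

theorem left_flow (hc : c.OK) (m : ℕ) : ∀ (j : ℕ) (val : ℕ → ℕ) (U : Finset ℕ)
    (C : Finset (ℕ × ℕ)), j + m = c.N → (∀ i, j ≤ i → i ∉ U) →
    (∀ i ≤ j, i ≠ 0 → (i, val i) ∈ C) → ¬ c.Wn m j val → Res c.ad.G (AD.cl U C) true true := by
  induction m with
  | zero => intro j val U C _ _ _ h; exact absurd trivial h
  | succ m ih =>
    intro j val U C hj hU hC h
    simp only [Wn, not_forall, not_or, not_exists, not_and, not_not] at h
    obtain ⟨r, hr, hot, h1, h2⟩ := h
    refine AD.left_step (good hc) (t := (j, r)) (mem_TT.2 ⟨by omega, by omega⟩) (hU j le_rfl) ?_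
    rintro ⟨i, s⟩ hp (⟨a, -⟩ | ⟨-, ⟨a, b, d⟩ | ⟨a, b, d⟩ | ⟨a, b, d⟩ | ⟨a, b, d⟩⟩) <;>
      dsimp only at *
    · omega
    · subst a b
      rw [hot.resolve_left d] at hp
      exact absurd (hC i le_rfl d) hp
    · subst a b
      refine AD.left_step (good hc) (t := (j + 1, 2)) (mem_TT.2 ⟨d, by omega⟩)
        (by simp [hU (j + 1) (by omega)]) ?_
      rintro ⟨i, s⟩ hp' (⟨-, a, b⟩ | ⟨a, -⟩) <;> dsimp only at *
      · subst a b
        simp at hp'
      · omega
    · subst a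
      refine ih (j + 1) (update val (j + 1) s) _ _ (by omega) (fun k hk => ?_) (fun k hk k0 => ?_)
        (h2 s b d)
      · rw [mem_insert, not_or]
        exact ⟨by omega, hU k (by omega)⟩
      · by_cases e : k = j + 1
        · simp [e]
        · rw [update_of_ne e]
          exact mem_insert_of_mem (hC k (by omega) k0)
    · subst a
      have := hc.2 j (by omega) _ _ d
      rw [h1 s b d] at hp
      exact absurd (hC _ this.1.le this.2) hp

theorem flow (hc : c.OK) (hN : 0 < c.N) (val : ℕ → ℕ) :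
    Res c.ad.G (AD.cl ∅ ∅) true true ∧ ¬ c.Wn c.N 0 val ∨
      Res c.ad.G (AD.cl ∅ ∅) true false ∧ c.Wn c.N 0 val := by
  by_cases h : c.Wn c.N 0 val
  · exact Or.inr ⟨right_flow hc hN h, h⟩
  · exact Or.inl ⟨left_flow hc _ 0 val _ _ (by omega) (by simp) (fun i hi h0 => by omega) h, h⟩

end Ch

end Pool.Agent.P.MP_6e435d_co.G
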