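import Pool.Agent.P.MP_6e435d_co.G.Form
import Pool.Agent.P.MP_5d374e_co.S2.Hard

/-!
The board of a formula as a graph on an initial segment of the naturals.
-/

set_option autoImplicit false
set_option linter.dupNamespace false

namespace Pool.Agent.P.MP_6e435d_co.G

open Pool.Agent.P.MP_ba7db8_lc Pool.Agent.Lib.Helper47 Pool.Agent.P.MP_5d374e_co.S2

/-- The vertex with given coordinates. -/
def dec (j r d : ℕ) : Vx :=
  if r < 3 then (if d = 0 then .t (j, r) else .g (j, r) (d - 1))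
  else if d = 0 then (if r = 3 then .a j else .p (j, r - 4)) else .j (j, r, d)

theorem dec_inj {j r d j' r' d' : ℕ} (h : dec j r d = dec j' r' d') : j = j' ∧ r = r' ∧ d = d' := by
  unfold dec at h
  split_ifs at h <;> simp only [Vx.t.injEq, Vx.g.injEq, Vx.a.injEq, Vx.p.injEq,
    Vx.j.injEq, Prod.mk.injEq] at h <;> omega

/-- The initial colour. -/
def col (r d : ℕ) : Bool := decide (d ≠ 0 ∨ r = 3)

theorem cl_dec (j r d : ℕ) : AD.cl ∅ ∅ (dec j r d) = some (col r d) := by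
  unfold dec col
  split_ifs <;> simp [AD.cl, *]
  omega

namespace Ch

variable (c : Ch)

/-- Directed edges in coordinates. -/
def EN (j r d j' r' d' : ℕ) : Prop :=
  (r = 3 ∧ d = 0 ∧ j' = j ∧ j < c.N ∧ r' < 3 ∧ d' ≤ 1) ∨
    (r < 3 ∧ j < c.N ∧ d = 0 ∧ d' = 0 ∧ 4 ≤ r' ∧ c.pr j r j' (r' - 4)) ∨
    (r < 3 ∧ j < c.N ∧ j' = j ∧ r' = r ∧ 1 ≤ d ∧ d' = d + 1 ∧ d ≤ 6 * c.N + 4)

theorem E_dec (j r d j' r' d' : ℕ) :
    c.ad.E (dec j r d) (dec j' r' d') ↔ c.EN j r d j' r' d' := by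
  have hM : c.ad.M = 6 * c.N + 4 := rfl
  have hp : ∀ t p, c.ad.prot t p = c.pr t.1 t.2 p.1 p.2 := fun _ _ => rfl
  unfold dec EN
  by_cases h : c.pr j r j' (r' - 4) <;> split_ifs <;>
    simp only [AD.E, mem_TT, hM, hp, h, Prod.mk.injEq, and_true, and_false, false_iff,
      false_or] <;> omega

/-- number of cells per column -/
def wd : ℕ := 6 * c.N + 6

/-- number of vertices -/
def nv : ℕ := (c.N + 1) * 7 * c.wd

/-- The vertex with a given number. -/
def vx (u : ℕ) : Vx := dec (u / c.wd / 7) (u / c.wd % 7) (u % c.wd)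

theorem vx_inj : Function.Injective c.vx := by
  intro u v h
  obtain ⟨a, b, d⟩ := dec_inj h
  have h1 := Nat.div_add_mod' u c.wd
  have h2 := Nat.div_add_mod' v c.wd
  have h3 : u / c.wd = v / c.wd := by omega
  rw [h3, d] at h1
  omega

theorem exists_vx {j r d : ℕ} (hj : j ≤ c.N) (hr : r < 7) (hd : d < c.wd) :
    ∃ u : Fin c.nv, c.vx u = dec j r d := by
  have h0 : 0 < c.wd := by omega
  refine ⟨⟨(j * 7 + r) * c.wd + d, ?_⟩, ?_⟩
  · unfold nv
    nlinarith
  · have h1 : ((j * 7 + r) * c.wd + d) / c.wd = j * 7 + r := by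
      rw [add_comm, Nat.add_mul_div_right _ _ h0, Nat.div_eq_of_lt hd, zero_add]
    have h2 : ((j * 7 + r) * c.wd + d) % c.wd = d := by
      rw [add_comm, Nat.add_mul_mod_self_right, Nat.mod_eq_of_lt hd]
    simp only [vx, h1, h2]
    congr 1 <;> omega

/-- The board. -/
def H : SimpleGraph (Fin c.nv) := c.ad.G.comap fun u => c.vx u

/-- The colouring. -/
def cl (u : Fin c.nv) : Bool := col (u / c.wd % 7) (u % c.wd)

variable {c}

theorem range_vx (hc : c.OK) (u v : Vx) (h : c.ad.G.Adj u v) : ∃ w : Fin c.nv, c.vx w = u := by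
  have hw : c.wd = 6 * c.N + 6 := rfl
  cases u with
  | a i =>
    obtain ⟨t, ht, rfl, -⟩ := AD.adj_a.1 h
    rw [mem_TT] at ht
    simpa [dec] using c.exists_vx (j := t.1) (r := 3) (d := 0) (by omega) (by omega) (by omega)
  | t t =>
    have ht := mem_TT.1 (AD.adj_t.1 h).1
    simpa [dec, ht.2] using c.exists_vx (j := t.1) (r := t.2) (d := 0) (by omega) (by omega)
      (by omega)
  | p p =>
    obtain ⟨t, ht, a, -⟩ := AD.adj_p.1 h
    have := (good hc).1 t ht p a
    simp only [ad, Finset.mem_product, Finset.mem_range] at this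
    simpa [dec, show ¬ p.2 + 4 < 3 by omega] using c.exists_vx (j := p.1) (r := p.2 + 4) (d := 0)
      (by omega) (by omega) (by omega)
  | g t d =>
    obtain ⟨ht, a⟩ := AD.adj_g.1 h
    rw [mem_TT] at ht
    have hM : c.ad.M = 6 * c.N + 4 := rfl
    have hd : d + 1 < c.wd := by
      rcases a with ⟨a, -⟩ | ⟨a, -⟩ | ⟨e, -, a, -⟩ <;> omega
    simpa [dec, ht.2] using c.exists_vx (j := t.1) (r := t.2) (d := d + 1) (by omega) (by omega) hd
  | j i => exact absurd h AD.adj_j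

theorem res_H (hc : c.OK) {w : Bool} (h : Res c.ad.G (AD.cl ∅ ∅) true w) :
    Res c.H (fun v => some (c.cl v)) true w := by
  have := h.comap (ψ := fun u : Fin c.nv => c.vx u) (c.vx_inj.comp Fin.val_injective) (range_vx hc)
  have e : (AD.cl ∅ ∅ ∘ fun u : Fin c.nv => c.vx u) = fun v => some (c.cl v) :=
    funext fun u => cl_dec _ _ _
  rwa [e] at this

/-- The two sides of the graph. -/
def side : Vx → Fin 2
  | .t _ => 1
  | .g _ d => if d % 2 = 0 then 1 else 0
  | _ => 0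

theorem side_ne {D : AD} {u v : Vx} (h : D.E u v) : side u ≠ side v := by
  cases u <;> cases v <;> simp only [AD.E] at h
  · simp [side]
  · simp [side, h.2.2]
  · simp [side]
  · obtain ⟨-, -, rfl, -⟩ := h
    simp only [side]
    split_ifs <;> omega

theorem colorable : c.H.Colorable 2 :=
  ⟨SimpleGraph.Coloring.mk (fun u => side (c.vx u)) fun h =>
    h.elim side_ne fun a => (side_ne a).symm⟩

theorem deg_le {k : ℕ} (h : ∀ u, ∃ l : List Vx, l.length ≤ k ∧ ∀ v, c.ad.G.Adj u v → v ∈ l)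
    (u : Fin c.nv) : (c.H.neighborSet u).ncard ≤ k := by
  obtain ⟨l, a, b⟩ := h (c.vx u)
  refine le_trans (Set.ncard_le_ncard_of_injOn (t := (l.toFinset : Set Vx)) (fun v => c.vx v)
    (fun v hv => by simpa using b _ hv) (c.vx_inj.comp Fin.val_injective).injOn) ?_
  rw [Set.ncard_coe_finset]
  exact (List.toFinset_card_le l).trans a

open Classical in
/-- The code of the board. -/
noncomputable def out (c : Ch) : List Bool :=
  pair ((List.range c.nv).map fun u => col (u / c.wd % 7) (u % c.wd))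
    ((List.range c.nv).flatMap fun u => (List.range c.nv).map fun v => decide
      (c.EN (u / c.wd / 7) (u / c.wd % 7) (u % c.wd) (v / c.wd / 7) (v / c.wd % 7) (v % c.wd) ∨
        c.EN (v / c.wd / 7) (v / c.wd % 7) (v % c.wd) (u / c.wd / 7) (u / c.wd % 7) (u % c.wd)))

theorem out_eq (c : Ch) : c.out = code c.H c.cl := by
  classical
  unfold out code
  congr 1
  · apply List.ext_getElem <;> simp [cl]
  · refine (adjBits_eq _ _ fun a b => ?_).symm
    rw [decide_eq_true_eq, ← E_dec, ← E_dec]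
    rfl

end Ch

namespace Fm

theorem nbrs (F : Fm) (u : Vx) :
    ∃ l : List Vx, l.length ≤ 6 ∧ ∀ v, F.ch.ad.G.Adj u v → v ∈ l := by
  cases u with
  | a i =>
    refine ⟨[.t (i, 0), .t (i, 1), .t (i, 2), .g (i, 0) 0, .g (i, 1) 0, .g (i, 2) 0], le_rfl,
      fun v h => ?_⟩
    obtain ⟨⟨j, r⟩, ht, rfl, a⟩ := AD.adj_a.1 h
    have hr := (Ch.mem_TT.1 ht).2
    dsimp only at hr
    rcases a with rfl | rfl <;> interval_cases r <;> simp
  | t t =>
    obtain ⟨j, r⟩ := t
    by_cases hl : F.n ≤ j / (F.n + 1) ∧ j % (F.n + 1) ≠ 0 ∧ r = 1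
    · refine ⟨[.a j, .p (j, F.ch.dflt j r), .p (j + 1, 2), .p (j + 1, 1), .p (F.ch.bk j, 0),
        .p (F.ch.bk j, 1)], le_rfl, fun v h => ?_⟩
      obtain ⟨-, rfl | ⟨⟨i, s⟩, a, rfl⟩⟩ := AD.adj_t.1 h
      · simp
      · rcases a with ⟨a, -⟩ | ⟨-, ⟨a, b, -⟩ | ⟨a, b, -⟩ | ⟨a, b, d⟩ | ⟨a, b, -⟩⟩ <;>
          dsimp only at *
        · omega
        · simp [a, b]
        · simp [a, b]
        · have : s = 1 := by
            rcases d with d | d | d <;> omega
          simp [a, this]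
        · subst a
          interval_cases s <;> simp
    · refine ⟨[.a j, .p (j, F.ch.dflt j r), .p (j + 1, 2), .p (j + 1, 1), .p (j + 1, 0),
        .p (j, 2)], le_rfl, fun v h => ?_⟩
      obtain ⟨-, rfl | ⟨⟨i, s⟩, a, rfl⟩⟩ := AD.adj_t.1 h
      · simp
      · rcases a with ⟨-, a, b⟩ | ⟨-, ⟨a, b, -⟩ | ⟨a, b, -⟩ | ⟨a, b, d⟩ | ⟨a, b, d⟩⟩ <;>
          dsimp only at *
        · simp [a, b]
        · simp [a, b]
        · simp [a, b]
        · subst a
          interval_cases s <;> simp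
        · exact absurd ⟨d.1, d.2.1, d.2.2.1⟩ hl
  | p p =>
    obtain ⟨i, s⟩ := p
    refine ⟨[.t (i, 0), .t (i, 1), .t (i, 2), .t (i - 1, 0), .t (i - 1, 1),
      .t (F.s (i % (F.n + 1) - 1 + F.n) (i / (F.n + 1) + 1), 1)], le_rfl, fun v h => ?_⟩
    obtain ⟨⟨j, r⟩, ht, a, rfl⟩ := AD.adj_p.1 h
    have hj := (Ch.mem_TT.1 ht).1
    rcases a with ⟨a, b, -⟩ | ⟨hr, ⟨a, -⟩ | ⟨a, -⟩ | ⟨a, -⟩ | ⟨a, -, d⟩⟩ <;> dsimp only at *
    · simp [a, b]
    · subst a
      interval_cases r <;> simp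
    · subst a
      interval_cases r <;> simp
    · subst a
      interval_cases r <;> simp
    · obtain ⟨d1, d2, rfl, -⟩ := d
      have h4 : j / (F.n + 1) < 2 * F.n := by
        rw [Nat.div_lt_iff_lt_mul (Nat.succ_pos _)]
        exact hj
      have e : i = F.s (j % (F.n + 1) - 1) (j / (F.n + 1) - F.n + 1) := a
      have : F.s (i % (F.n + 1) - 1 + F.n) (i / (F.n + 1) + 1) = j := by
        rw [e, s_div (by omega), s_mod (by omega), show j / (F.n + 1) - F.n + 1 - 1 + F.n =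
          j / (F.n + 1) by omega, show j % (F.n + 1) - 1 + 1 = j % (F.n + 1) by omega]
        exact Nat.div_add_mod' j (F.n + 1)
      simp [this]
  | g t d =>
    refine ⟨[.a t.1, .g t (d + 1), .g t (d - 1)], by simp, fun v h => ?_⟩
    obtain ⟨-, ⟨-, rfl⟩ | ⟨-, rfl⟩ | ⟨e, rfl, -, rfl⟩⟩ := AD.adj_g.1 h <;> simp
  | j i => exact ⟨[], by simp, fun v h => absurd h AD.adj_j⟩

section PT

variable {α β : Type} [Enc α] [Enc β] {F : α → Fm}

theorem ptp_EN (hn : PT fun a => (F a).n)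
    (ho : PTP fun y : α × ℕ => (F y.1).own y.2)
    (hg : PTP fun y : α × ℕ × ℕ × ℕ => (F y.1).ng y.2.1 y.2.2.1 y.2.2.2)
    {X : β → α} {j r d j' r' d' : β → ℕ} (hX : PT X) (hj : PT j) (hr : PT r) (hd : PT d)
    (hj' : PT j') (hr' : PT r') (hd' : PT d') :
    PTP fun b => (F (X b)).ch.EN (j b) (r b) (d b) (j' b) (r' b) (d' b) := by
  have hn' := hn.comp hX
  have h1 : PTP fun b => (F (X b)).own (j b / ((F (X b)).n + 1)) :=
    ho.comp (f := fun b => (X b, j b / ((F (X b)).n + 1))) (by fun_prop)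
  have h2 : PTP fun b => (F (X b)).ng (j b / ((F (X b)).n + 1) - (F (X b)).n)
      (j b % ((F (X b)).n + 1) - 1) (r' b - 4) :=
    hg.comp (f := fun b => (X b, j b / ((F (X b)).n + 1) - (F (X b)).n,
      j b % ((F (X b)).n + 1) - 1, r' b - 4)) (by fun_prop)
  have h3 : PT fun b => if j b % ((F (X b)).n + 1) = 0 then 0 else r b :=
    PTP.ite (PTP.eq (by fun_prop) (by fun_prop)) (by fun_prop) hr
  unfold Ch.EN Ch.pr
  simp only [ch, nx, lt]
  repeat' first
    | exact h1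
    | exact h2
    | apply PTP.and
    | apply PTP.or
    | (apply PTP.eq <;> fun_prop)
    | (apply PTP.lt <;> fun_prop)
    | (apply PTP.le <;> fun_prop)
    | apply PTP.not
    | apply PTP.imp

theorem pt_out (hn : PT fun a => (F a).n) (hn' : PS fun a => (F a).n)
    (ho : PTP fun y : α × ℕ => (F y.1).own y.2)
    (hg : PTP fun y : α × ℕ × ℕ × ℕ => (F y.1).ng y.2.1 y.2.2.1 y.2.2.2) :
    PT fun a => (F a).ch.out := by
  classical
  have hN : PT fun a => (F a).ch.N := by simp only [ch]; fun_prop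
  have hN' : PS fun a => (F a).ch.N := ((PB.const 2).mul hn').mul (hn'.add (PB.const 1))
  have hw : PT fun a => (F a).ch.wd := by unfold Ch.wd; fun_prop
  have hw' : PS fun a => (F a).ch.wd := ((PB.const 6).mul hN').add (PB.const 6)
  have hv : PT fun a => (F a).ch.nv := by unfold Ch.nv; fun_prop
  have hv' : PS fun a => (F a).ch.nv := ((hN'.add (PB.const 1)).mul (PB.const 7)).mul hw'
  have hr := PT.range hv hv'
  unfold Ch.out
  refine Par.pt_pair (PT.map (g := fun a u => col (u / (F a).ch.wd % 7) (u % (F a).ch.wd)) ?_ hr)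
    (PT.flatMap (g := fun a u => (List.range (F a).ch.nv).map fun v => decide _) ?_ hr)
  · have hw1 : PT fun y : α × ℕ => (F y.1).ch.wd := hw.comp (by fun_prop)
    exact PTP.dec (PTP.or (PTP.eq (by fun_prop) (by fun_prop)).not
      (PTP.eq (by fun_prop) (by fun_prop)))
  · refine PT.map (g := fun (y : α × ℕ) v => decide _) ?_ (hr.comp (by fun_prop))
    have hw1 : PT fun y : (α × ℕ) × ℕ => (F y.1.1).ch.wd := hw.comp (by fun_prop)
    refine PTP.dec (PTP.or (ptp_EN hn ho hg (X := fun y : (α × ℕ) × ℕ => y.1.1) ?_ ?_ ?_ ?_ ?_ ?_ ?_)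
      (ptp_EN hn ho hg (X := fun y : (α × ℕ) × ℕ => y.1.1) ?_ ?_ ?_ ?_ ?_ ?_ ?_)) <;> fun_prop

end PT

end Fm

end Pool.Agent.P.MP_6e435d_co.G
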