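import Pool.Agent.P.MP_ba7db8_lc.Defs

/-!
Clobber on graphs as a language, and alternating polynomial time.
-/

set_option autoImplicit false

namespace Pool.Agent.P.MP_6e435d_co.G

open Pool.Agent.P.MP_ba7db8_lc

/-- The stone on `u` moves to `v`, replacing the stone there. -/
def mv {V : Type} [DecidableEq V] (f : V → Option Bool) (u v : V) : V → Option Bool :=
  Function.update (Function.update f u none) v (f u)

/-- `Res G f b w`: in normal-play Clobber on `G` from position `f` with colour `b` to move, the
player to move wins (`w = true`) or loses (`w = false`) under best play. -/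
inductive Res {V : Type} [DecidableEq V] (G : SimpleGraph V) :
    (V → Option Bool) → Bool → Bool → Prop
  | win (f : V → Option Bool) (b : Bool) (u v : V) : G.Adj u v → f u = some b →
      f v = some (!b) → Res G (mv f u v) (!b) false → Res G f b true
  | lose (f : V → Option Bool) (b : Bool) : (∀ u v, G.Adj u v → f u = some b →
      f v = some (!b) → Res G (mv f u v) (!b) true) → Res G f b false

/-- The code of a graph on `Fin N` with a stone of colour `c v` on each vertex `v`. -/
noncomputable def code {N : ℕ} (H : SimpleGraph (Fin N)) (c : Fin N → Bool) : List Bool :=
  pair (List.ofFn c) (adjBits H)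

/-- The codes of the full boards on which colour `true`, moving first, wins. -/
def Lang : Set (List Bool) :=
  {x | ∃ (N : ℕ) (H : SimpleGraph (Fin N)) (c : Fin N → Bool),
    x = code H c ∧ Res H (fun v => some (c v)) true true}

/-- `n` further bits are appended to `w`, with alternating quantifiers (existential at even
positions), and `P` is asked of the final word. -/
def Alt (P : List Bool → Prop) : ℕ → List Bool → Prop
  | 0, w => P w
  | n + 1, w => if w.length % 2 = 0 then ∃ b, Alt P n (w ++ [b]) else ∀ b, Alt P n (w ++ [b])

/-- Alternating polynomial time. -/
def InAP (L : Set (List Bool)) : Prop :=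
  ∃ (V : List Bool → Bool) (p : Polynomial ℕ),
    Nonempty (Turing.TM2ComputableInPolyTime id Computability.encodeBool V) ∧
      ∀ x, x ∈ L ↔ Alt (fun w => V (pair x w) = true) (p.eval x.length) []

end Pool.Agent.P.MP_6e435d_co.G
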