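import Pool.Agent.P.MP_6e435d_co.G.Chain

/-!
The chain of a quantified formula.
-/

set_option autoImplicit false
set_option linter.dupNamespace false

namespace Pool.Agent.P.MP_6e435d_co.G

open Function

/-- A quantified formula with `n` variables and `n` clauses. -/
structure Fm where
  /-- number of variables and of clauses -/
  n : ℕ
  /-- universal variables -/
  own : ℕ → Prop
  /-- clause `k` contains the literal: variable `i` differs from `r` -/
  ng : ℕ → ℕ → ℕ → Prop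

namespace Fm

variable (F : Fm)

/-- A clause is satisfied. -/
def Sat (k : ℕ) (z : ℕ → ℕ) : Prop := ∃ i < F.n, ∃ r < 2, F.ng k i r ∧ r ≠ z i

/-- The value of the formula with `m` variables left, the next one being `b`. -/
def QB : ℕ → ℕ → (ℕ → ℕ) → Prop
  | 0, _, z => ∀ k < F.n, F.Sat k z
  | m + 1, b, z => (F.own b → ∀ r < 2, QB m (b + 1) (update z b r)) ∧
      (¬ F.own b → ∃ r < 2, QB m (b + 1) (update z b r))

/-- Passing rule at position `p` of block `b`. -/
def nx (b p r r' : ℕ) : Prop :=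
  (p = 0 ∧ ((F.own b ∨ F.n ≤ b) → r' = r)) ∨ (p ≠ 0 ∧ p < F.n ∧ r' = r) ∨
    (p = F.n ∧ r' = 0 ∧ (b < F.n ∨ r = 0))

/-- Literal rule at position `p` of block `b`. -/
def lt (b p r r' : ℕ) : Prop := F.n ≤ b ∧ p ≠ 0 ∧ r = 1 ∧ F.ng (b - F.n) (p - 1) r'

/-- The chain. -/
def ch : Ch where
  N := 2 * F.n * (F.n + 1)
  dflt j r := if j % (F.n + 1) = 0 then 0 else r
  nx j := F.nx (j / (F.n + 1)) (j % (F.n + 1))
  lt j := F.lt (j / (F.n + 1)) (j % (F.n + 1))
  bk j := (j % (F.n + 1) - 1) * (F.n + 1) + (j / (F.n + 1) - F.n + 1)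

/-- Stage number. -/
def s (b p : ℕ) : ℕ := b * (F.n + 1) + p

variable {F}

theorem s_div {b p : ℕ} (hp : p ≤ F.n) : F.s b p / (F.n + 1) = b := by
  unfold s
  rw [add_comm, Nat.add_mul_div_right _ _ (Nat.succ_pos _), Nat.div_eq_of_lt (by omega), zero_add]

theorem s_mod {b p : ℕ} (hp : p ≤ F.n) : F.s b p % (F.n + 1) = p := by
  unfold s
  rw [add_comm, Nat.add_mul_mod_self_right, Nat.mod_eq_of_lt (by omega)]

theorem s_inj {b p b' p' : ℕ} (hp : p ≤ F.n) (hp' : p' ≤ F.n) (h : F.s b p = F.s b' p') :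
    b = b' ∧ p = p' := by
  have h1 := s_div (b := b) hp
  have h2 := s_mod (b := b) hp
  rw [h, s_div hp'] at h1
  rw [h, s_mod hp'] at h2
  exact ⟨h1.symm, h2.symm⟩

theorem s_lt {b p b' : ℕ} (hp : p ≤ F.n) (h : b < b') : F.s b p < F.s b' 0 := by
  unfold s
  nlinarith

theorem s_succ (b : ℕ) : F.s b F.n + 1 = F.s (b + 1) 0 := by
  unfold s
  ring

theorem ok : F.ch.OK := by
  refine ⟨fun j r hr => ?_, fun j hj r r' h => ⟨?_, by simp [ch]⟩⟩
  · simp only [ch]
    split_ifs <;> omega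
  · obtain ⟨h1, h2, -⟩ := h
    have h3 : j % (F.n + 1) < F.n + 1 := Nat.mod_lt _ (Nat.succ_pos _)
    have h4 : j / (F.n + 1) < 2 * F.n := by
      rw [Nat.div_lt_iff_lt_mul (Nat.succ_pos _)]
      exact hj
    have h5 := s_lt (F := F) (b := j % (F.n + 1) - 1) (p := j / (F.n + 1) - F.n + 1)
      (b' := j / (F.n + 1)) (by omega) (by omega)
    have h6 := Nat.div_add_mod' j (F.n + 1)
    unfold s at h5
    simp only [ch]
    omega

/-- Right survives from stage `j`. -/
def W (F : Fm) (j : ℕ) (val : ℕ → ℕ) : Prop := F.ch.Wn (F.ch.N - j) j val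

theorem W_iff {b p : ℕ} (hb : b < 2 * F.n) (hp : p ≤ F.n) (val : ℕ → ℕ) :
    F.W (F.s b p) val ↔ ∀ r < 2, (F.s b p = 0 ∨ (if p = 0 then 0 else r) = val (F.s b p)) →
      (∃ r' < 2, F.lt b p r r' ∧ r' ≠ val (F.s (p - 1) (b - F.n + 1))) ∨
        ∃ r' < 2, F.nx b p r r' ∧ F.W (F.s b p + 1) (update val (F.s b p + 1) r') := by
  have h := s_lt (F := F) hp hb
  unfold W
  rw [show F.ch.N - F.s b p = F.ch.N - (F.s b p + 1) + 1 by
    change F.s b p < F.ch.N at h; omega, Ch.Wn]
  simp only [ch, s_div hp, s_mod hp]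
  rfl

/-- The record agrees with the assignment up to stage `J`. -/
def Rel (F : Fm) (J : ℕ) (val z : ℕ → ℕ) : Prop :=
  ∀ i < F.n, ∀ p, 1 ≤ p → p ≤ F.n → F.s i p ≤ J → val (F.s i p) = z i

theorem Rel.step {J b p r : ℕ} {val z : ℕ → ℕ} (h : F.Rel J val z) (e : J + 1 = F.s b p)
    (hp : p ≤ F.n) (hr : b < F.n → 1 ≤ p → r = z b) :
    F.Rel (J + 1) (update val (J + 1) r) z := by
  intro i hi q h1 h2 h3
  by_cases c : F.s i q = J + 1
  · rw [c, update_self]
    obtain ⟨rfl, rfl⟩ := s_inj h2 hp (c.trans e)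
    exact hr hi h1
  · rw [update_of_ne c]
    exact h i hi q h1 h2 (by omega)

theorem run {b v : ℕ} (hb : b < 2 * F.n) (hv : v < 2) {z : ℕ → ℕ} {X : Prop}
    (hX : ∀ val, F.Rel (F.s (b + 1) 0) val z → val (F.s (b + 1) 0) = 0 →
      (F.W (F.s (b + 1) 0) val ↔ X)) (hz : b < F.n → v = z b) (m : ℕ) :
    ∀ p, p + m = F.n → 1 ≤ p → ∀ val, F.Rel (F.s b p) val z → val (F.s b p) = v →
      (F.W (F.s b p) val ↔ (F.n ≤ b ∧ v = 1 ∧ ∃ i < F.n, p - 1 ≤ i ∧
        ∃ r < 2, F.ng (b - F.n) i r ∧ r ≠ z i) ∨ ((b < F.n ∨ v = 0) ∧ X)) := by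
  have key : ∀ p, p ≤ F.n → 1 ≤ p → ∀ val, F.Rel (F.s b p) val z → val (F.s b p) = v →
      (F.W (F.s b p) val ↔ (F.n ≤ b ∧ v = 1 ∧ ∃ r < 2, F.ng (b - F.n) (p - 1) r ∧ r ≠ z (p - 1)) ∨
        ∃ r' < 2, F.nx b p v r' ∧ F.W (F.s b p + 1) (update val (F.s b p + 1) r')) := by
    intro p hp h1 val hR hval
    have h0 : F.s b p ≠ 0 := by unfold s; omega
    have h2 : F.n ≤ b → val (F.s (p - 1) (b - F.n + 1)) = z (p - 1) := fun a =>
      hR _ (by omega) _ (by omega) (by omega) (by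
        have := s_lt (F := F) (b := p - 1) (p := b - F.n + 1) (b' := b) (by omega) (by omega)
        unfold s at this ⊢
        omega)
    rw [W_iff hb hp, hval]
    simp only [h0, false_or, if_neg (show p ≠ 0 by omega)]
    constructor
    · intro h
      refine (h v hv rfl).imp_left ?_
      rintro ⟨r, a, ⟨c, -, d, e⟩, f⟩
      exact ⟨c, d, r, a, e, h2 c ▸ f⟩
    · rintro h r - rfl
      refine h.imp_left ?_
      rintro ⟨c, d, r', a, e, f⟩
      exact ⟨r', a, ⟨c, by omega, d, e⟩, (h2 c).symm ▸ f⟩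
  induction m with
  | zero =>
    intro p hp h1 val hR hval
    obtain rfl : p = F.n := by omega
    rw [key _ le_rfl h1 val hR hval]
    have h3 := hX _ (s_succ b ▸ hR.step (s_succ b) (Nat.zero_le _) (r := 0) (by omega))
      (by rw [update_self])
    refine or_congr (and_congr_right fun _ => and_congr_right fun _ => ⟨fun a =>
      ⟨_, by omega, le_rfl, a⟩, fun ⟨i, a, c, d⟩ => ?_⟩) ⟨?_, fun ⟨a, c⟩ => ?_⟩
    · obtain rfl : i = F.n - 1 := by omega
      exact d
    · rintro ⟨r, -, ⟨a, -⟩ | ⟨-, a, -⟩ | ⟨-, rfl, a⟩, c⟩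
      · omega
      · omega
      · rw [s_succ] at c
        exact ⟨a, h3.1 c⟩
    · refine ⟨0, by omega, Or.inr (Or.inr ⟨rfl, rfl, a⟩), ?_⟩
      rw [s_succ]
      exact h3.2 c
  | succ m ih =>
    intro p hp h1 val hR hval
    rw [key _ (by omega) h1 val hR hval]
    have h3 := ih (p + 1) (by omega) (by omega) _
      (hR.step (b := b) (p := p + 1) rfl (by omega) (r := v) fun a _ => hz a) (update_self ..)
    have h4 : (∃ r' < 2, F.nx b p v r' ∧ F.W (F.s b p + 1) (update val (F.s b p + 1) r')) ↔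
        F.W (F.s b p + 1) (update val (F.s b p + 1) v) := by
      constructor
      · rintro ⟨r, -, ⟨a, -⟩ | ⟨-, -, rfl⟩ | ⟨a, -⟩, c⟩
        · omega
        · exact c
        · omega
      · exact fun c => ⟨v, hv, Or.inr (Or.inl ⟨by omega, by omega, rfl⟩), c⟩
    rw [h4]
    refine (or_congr_right h3).trans ?_
    rw [← or_assoc, ← and_or_left, ← and_or_left]
    refine or_congr_left (and_congr_right fun _ => and_congr_right fun _ => ⟨?_, ?_⟩)
    · rintro (a | ⟨i, a, c, d⟩)
      · exact ⟨_, by omega, le_rfl, a⟩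
      · exact ⟨i, a, by omega, d⟩
    · rintro ⟨i, a, c, d⟩
      by_cases e : i = p - 1
      · exact Or.inl (e ▸ d)
      · exact Or.inr ⟨i, a, by omega, d⟩

theorem W_start (hn : 0 < F.n) {b : ℕ} (hb : b < 2 * F.n) {val : ℕ → ℕ}
    (h : b = 0 ∨ val (F.s b 0) = 0) :
    F.W (F.s b 0) val ↔ ∀ r < 2, ∃ r' < 2, ((F.own b ∨ F.n ≤ b) → r' = r) ∧
      F.W (F.s b 1) (update val (F.s b 1) r') := by
  rw [W_iff hb (Nat.zero_le _)]
  have h0 : F.s b 0 = 0 ∨ 0 = val (F.s b 0) := h.imp (fun a => by simp [a, s]) Eq.symm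
  refine forall₂_congr fun r hr => ?_
  simp only [if_true, h0, true_implies, lt, nx, ne_eq, not_true_eq_false, false_and, and_false,
    exists_false, false_or, true_and, hn.ne, or_false]
  rfl

theorem phase2 (hn : 0 < F.n) (z : ℕ → ℕ) (m : ℕ) : ∀ b, b + m = 2 * F.n → F.n ≤ b → ∀ val,
    F.Rel (F.s b 0) val z → val (F.s b 0) = 0 →
      (F.W (F.s b 0) val ↔ ∀ k < F.n, b - F.n ≤ k → F.Sat k z) := by
  induction m with
  | zero =>
    intro b hb _ val _ _
    obtain rfl : b = 2 * F.n := by omega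
    have : F.ch.N - F.s (2 * F.n) 0 = 0 := by simp [ch, s]
    unfold W
    rw [this]
    exact ⟨fun _ k a c => by omega, fun _ => trivial⟩
  | succ m ih =>
    intro b hb h1 val hR hval
    rw [W_start hn (by omega) (Or.inr hval)]
    have h2 := fun r (hr : r < 2) => run (b := b) (by omega) hr (ih (b + 1) (by omega) (by omega))
      (by omega) (F.n - 1) 1 (by omega) le_rfl _
      (hR.step (b := b) (p := 1) rfl hn (r := r) (by omega)) (update_self ..)
    constructor
    · intro h k a c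
      by_cases e : k = b - F.n
      · obtain ⟨r, -, d, f⟩ := h 1 (by omega)
        obtain rfl := d (Or.inr h1)
        rcases (h2 1 (by omega)).1 f with ⟨-, -, i, g, -, l⟩ | ⟨g, -⟩
        · exact ⟨i, g, e ▸ l⟩
        · omega
      · obtain ⟨r, -, d, f⟩ := h 0 (by omega)
        obtain rfl := d (Or.inr h1)
        rcases (h2 0 (by omega)).1 f with ⟨-, g, -⟩ | ⟨-, g⟩
        · omega
        · exact g k a (by omega)
    · intro h r hr
      refine ⟨r, hr, fun _ => rfl, (h2 r hr).2 ?_⟩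
      by_cases e : r = 0
      · exact Or.inr ⟨Or.inr e, fun k a c => h k a (by omega)⟩
      · obtain ⟨i, a, c⟩ := h (b - F.n) (by omega) le_rfl
        exact Or.inl ⟨h1, by omega, i, a, by omega, c⟩

theorem phase1 (hn : 0 < F.n) (m : ℕ) : ∀ b, b + m = F.n → ∀ val z,
    F.Rel (F.s b 0) val z → (b = 0 ∨ val (F.s b 0) = 0) → (F.W (F.s b 0) val ↔ F.QB m b z) := by
  induction m with
  | zero =>
    intro b hb val z hR hval
    obtain rfl : b = F.n := by omega
    rw [phase2 hn z F.n _ (by omega) le_rfl val hR (hval.resolve_left hn.ne')]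
    simp [QB]
  | succ m ih =>
    intro b hb val z hR hval
    rw [W_start hn (by omega) hval]
    have h1 : ∀ r, F.Rel (F.s b 0) val (update z b r) := by
      intro r i hi p a c d
      have : i ≠ b := by
        rintro rfl
        unfold s at d
        omega
      rw [update_of_ne this]
      exact hR i hi p a c d
    have h2 : ∀ r < 2, F.W (F.s b 1) (update val (F.s b 1) r) ↔
        F.QB m (b + 1) (update z b r) := by
      intro r hr
      refine (run (b := b) (by omega) hr (fun val' a c => ih (b + 1) (by omega) val' _ a (Or.inr c))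
        (fun _ => by simp) (F.n - 1) 1 (by omega) le_rfl _
        ((h1 r).step (b := b) (p := 1) rfl hn (r := r) fun _ _ => by simp)
        (update_self ..)).trans ?_
      simp [show b < F.n by omega, show ¬ F.n ≤ b by omega]
    have h3 : ¬ F.n ≤ b := by omega
    simp only [QB, h3, or_false]
    by_cases e : F.own b
    · simp only [e, true_implies, not_true_eq_false, false_implies, and_true]
      refine forall₂_congr fun r hr => ⟨?_, fun a => ⟨r, hr, rfl, (h2 r hr).2 a⟩⟩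
      rintro ⟨r', -, rfl, a⟩
      exact (h2 _ hr).1 a
    · simp only [e, false_implies, not_false_eq_true, true_implies, true_and]
      constructor
      · intro a
        obtain ⟨r, c, d⟩ := a 0 (by omega)
        exact ⟨r, c, (h2 r c).1 d⟩
      · rintro ⟨r, c, d⟩ _ _
        exact ⟨r, c, (h2 r c).2 d⟩

theorem wn_iff (hn : 0 < F.n) (val z : ℕ → ℕ) : F.ch.Wn F.ch.N 0 val ↔ F.QB F.n 0 z := by
  have := phase1 hn F.n 0 (by omega) val z (fun i _ p a _ d => by unfold s at d; omega) (Or.inl rfl)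
  simpa [W, s] using this

theorem game (hn : 0 < F.n) (z : ℕ → ℕ) :
    Res F.ch.ad.G (AD.cl ∅ ∅) true true ∧ ¬ F.QB F.n 0 z ∨
      Res F.ch.ad.G (AD.cl ∅ ∅) true false ∧ F.QB F.n 0 z := by
  rw [← wn_iff hn z z]
  exact Ch.flow ok (by simp only [ch]; positivity) z

end Fm

end Pool.Agent.P.MP_6e435d_co.G
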