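import Pool.Agent.P.MP_6e435d_co.G.Defs

/-!
General facts on the outcome relation.
-/

set_option autoImplicit false

namespace Pool.Agent.P.MP_6e435d_co.G

variable {V W : Type} [DecidableEq V] [DecidableEq W] {G : SimpleGraph V}

theorem mv_apply (f : V → Option Bool) (u v w : V) :
    mv f u v w = if w = v then f u else if w = u then none else f w := by
  simp only [mv, Function.update_apply]

theorem Res.excl' {f : V → Option Bool} {b w : Bool} (h : Res G f b w) :
    ∀ w', Res G f b w' → w' = w := by
  induction h with
  | win f b u v a c d _ ih =>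
    intro w' h'
    cases h' with
    | win => rfl
    | lose _ _ h' => exact absurd (ih _ (h' u v a c d)) (by simp)
  | lose f b _ ih =>
    intro w' h'
    cases h' with
    | win _ _ u v a c d e => exact absurd (ih u v a c d _ e) (by simp)
    | lose => rfl

theorem Res.excl {f : V → Option Bool} {b : Bool} (h : Res G f b false) : ¬ Res G f b true :=
  fun h' => absurd (h.excl' _ h') (by simp)

theorem mv_comp {ψ : W → V} (hψ : Function.Injective ψ) (f : V → Option Bool) (u v : W) :
    mv (f ∘ ψ) u v = mv f (ψ u) (ψ v) ∘ ψ := by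
  funext w
  simp only [mv_apply, Function.comp, hψ.eq_iff]

theorem Res.comap {ψ : W → V} (hψ : Function.Injective ψ)
    (hr : ∀ u v, G.Adj u v → ∃ u', ψ u' = u) {f : V → Option Bool} {b w : Bool}
    (h : Res G f b w) : Res (G.comap ψ) (f ∘ ψ) b w := by
  induction h with
  | win f b u v a c d _ ih =>
    obtain ⟨u', rfl⟩ := hr u v a
    obtain ⟨v', rfl⟩ := hr v _ a.symm
    exact Res.win _ _ u' v' a c d (by rw [mv_comp hψ]; exact ih)
  | lose f b _ ih =>
    exact Res.lose _ _ fun u v a c d => by rw [mv_comp hψ]; exact ih _ _ a c d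

end Pool.Agent.P.MP_6e435d_co.G
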