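import Pool.Agent.P.MP_6e435d_co.G.Code

/-!
Hardness for alternating polynomial time.
-/

set_option autoImplicit false
set_option linter.dupNamespace false

namespace Pool.Agent.P.MP_6e435d_co.G

open Pool.Agent.P.MP_ba7db8_lc Pool.Agent.Lib.Helper47 Pool.Agent.P.MP_5d374e_co.S2 Function Turing

theorem code_mem {N : ℕ} (H : SimpleGraph (Fin N)) (c : Fin N → Bool) :
    code H c ∈ Lang ↔ Res H (fun v => some (c v)) true true := by
  refine ⟨?_, fun h => ⟨N, H, c, rfl, h⟩⟩
  rintro ⟨N', H', c', e, h⟩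
  have e1 := congrArg unp1 e
  have e2 := congrArg unp2 e
  simp only [code, unp1_pair, unp2_pair] at e1 e2
  obtain rfl : N = N' := by simpa using congrArg List.length e1
  obtain rfl : c = c' := List.ofFn_injective e1
  obtain rfl : H = H' := by
    ext a b
    rw [← getD_adjBits, ← getD_adjBits, e2]
  exact h

namespace Fm

variable {F : Fm}

theorem Sat.congr {k : ℕ} {z z' : ℕ → ℕ} (h : F.Sat k z) (e : ∀ i < F.n, z i = z' i) :
    F.Sat k z' := by
  obtain ⟨i, a, r, b, c, d⟩ := h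
  exact ⟨i, a, r, b, c, e i a ▸ d⟩

theorem lt_update {z : ℕ → ℕ} (hz : ∀ i, z i < 2) (b : ℕ) {r : ℕ} (hr : r < 2) (i : ℕ) :
    update z b r i < 2 := by
  rw [update_apply]
  split_ifs
  · exact hr
  · exact hz i

theorem QB_ex (m : ℕ) : ∀ (b : ℕ) (z : ℕ → ℕ), b + m = F.n → (∀ i, b ≤ i → ¬ F.own i) →
    (∀ i, z i < 2) → (F.QB m b z ↔
      ∃ z' : ℕ → ℕ, (∀ i < b, z' i = z i) ∧ (∀ i, z' i < 2) ∧ ∀ k < F.n, F.Sat k z') := by
  induction m with
  | zero =>
    intro b z hb _ hz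
    obtain rfl : b = F.n := by omega
    exact ⟨fun h => ⟨z, fun _ _ => rfl, hz, h⟩, fun ⟨z', a, _, c⟩ k hk => (c k hk).congr a⟩
  | succ m ih =>
    intro b z hb ho hz
    have h0 := ho b le_rfl
    have h1 := fun r (hr : r < 2) => ih (b + 1) (update z b r) (by omega)
      (fun i hi => ho i (by omega)) (lt_update hz b hr)
    simp only [QB, h0, false_implies, not_false_eq_true, true_implies, true_and]
    constructor
    · rintro ⟨r, hr, h⟩
      obtain ⟨z', a, c⟩ := (h1 r hr).1 h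
      exact ⟨z', fun i hi => by rw [a i (by omega), update_of_ne hi.ne], c⟩
    · rintro ⟨z', a, c, d⟩
      refine ⟨z' b, c b, (h1 _ (c b)).2 ⟨z', fun i hi => ?_, c, d⟩⟩
      by_cases e : i = b
      · rw [e, update_self]
      · rw [update_of_ne e, a i (by omega)]

theorem QB_alt {P : List Bool → Prop} {pw R : ℕ} (ho : ∀ i < pw, F.own i ↔ i % 2 = 0)
    (h : ∀ (z : ℕ → ℕ) (w : List Bool), (∀ i, z i < 2) → w.length = pw →
      (∀ i < pw, z i = (w.getD i false).toNat) → (F.QB R pw z ↔ ¬ P w)) (m : ℕ) :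
    ∀ (w : List Bool) (z : ℕ → ℕ), w.length + m = pw → (∀ i, z i < 2) →
      (∀ i < w.length, z i = (w.getD i false).toNat) →
      (F.QB (R + m) w.length z ↔ ¬ Alt P m w) := by
  induction m with
  | zero =>
    intro w z hw hz e
    obtain rfl : w.length = pw := hw
    exact h z w hz rfl e
  | succ m ih =>
    intro w z hw hz e
    have h1 : ∀ b : Bool, F.QB (R + m) (w.length + 1) (update z w.length b.toNat) ↔
        ¬ Alt P m (w ++ [b]) := by
      intro b
      have := ih (w ++ [b]) (update z w.length b.toNat) (by simp; omega)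
        (lt_update hz _ (Bool.toNat_lt b)) (by
          intro i hi
          by_cases c : i = w.length
          · subst c
            simp
          · have d : i < w.length := by simp at hi; omega
            rw [update_of_ne c, e i d, List.getD_append _ _ _ _ d])
      simpa using this
    have h2 := h1 false
    have h3 := h1 true
    rw [← add_assoc, QB, Alt, ho _ (by omega)]
    simp only [Bool.toNat_false, Bool.toNat_true] at h2 h3
    by_cases c : w.length % 2 = 0
    · simp only [c, if_true, true_implies, not_true_eq_false, false_implies, and_true,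
        Bool.exists_bool, not_or, ← h2, ← h3]
      exact ⟨fun a => ⟨a 0 (by omega), a 1 (by omega)⟩, fun a r hr => by
        interval_cases r
        exacts [a.1, a.2]⟩
    · simp only [c, if_false, false_implies, not_false_eq_true, true_implies, true_and,
        Bool.forall_bool, not_and_or, ← h2, ← h3]
      constructor
      · rintro ⟨r, hr, a⟩
        interval_cases r
        exacts [Or.inl a, Or.inr a]
      · rintro (a | a)
        exacts [⟨0, by omega, a⟩, ⟨1, by omega, a⟩]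

end Fm

section Formula

variable (I : Inst) (lx pw : ℕ)

/-- Nontrivial clauses. -/
def nt (y s t : ℕ) : Prop :=
  s < I.k * I.D ∧ ((y = 0 ∧ s / I.D ≠ t / I.D ∧ ¬ I.E (s / I.D) (s % I.D) (t / I.D) (t % I.D)) ∨
    y = 1 ∨ (y = 2 ∧ t < 2 ∧ ¬ I.A (s / I.D) t (s % I.D) ∧
      (t = 0 ∨ (lx ≤ s / I.D ∧ s / I.D < lx + 2 * pw))))

/-- Literals of the nontrivial clauses. -/
def lit (y s t i r : ℕ) : Prop :=
  (y = 0 ∧ r = 1 ∧ (i = 2 * pw + s ∨ i = 2 * pw + t)) ∨
    (y = 1 ∧ r = 0 ∧ 2 * pw ≤ i ∧ i < 2 * pw + I.k * I.D ∧ (i - 2 * pw) / I.D = s / I.D) ∨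
    (y = 2 ∧ ((r = 1 ∧ i = 2 * pw + s) ∨
      (lx ≤ s / I.D ∧ s / I.D < lx + 2 * pw ∧ i = s / I.D - lx ∧ r = t)))

/-- The formula of an instance. -/
def fm : Fm where
  n := 3 * (I.k * I.D * (I.k * I.D)) + 2 * pw + I.k * I.D
  own i := i < pw ∧ i % 2 = 0
  ng k i r := ¬ nt I lx pw (k % 3) (k / 3 / (I.k * I.D)) (k / 3 % (I.k * I.D)) ∨
    lit I lx pw (k % 3) (k / 3 / (I.k * I.D)) (k / 3 % (I.k * I.D)) i r

/-- The bits read by the instance. -/
def uu (z : ℕ → ℕ) (p : ℕ) : ℕ := if lx ≤ p ∧ p < lx + 2 * pw then z (p - lx) else 0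

variable {I lx pw}

theorem fm_sound (hK : 2 ≤ I.k * I.D) {z : ℕ → ℕ} (hz : ∀ i, z i < 2)
    (h : ∀ k < (fm I lx pw).n, (fm I lx pw).Sat k z) : ∃ σ, I.Sol (uu lx pw z) σ := by
  have hD : 0 < I.D := Nat.pos_of_ne_zero fun e => by simp [e] at hK
  have key : ∀ y < 3, ∀ s < I.k * I.D, ∀ t < I.k * I.D, nt I lx pw y s t →
      ∃ i r, lit I lx pw y s t i r ∧ r ≠ z i := by
    intro y hy s hs t ht hn
    have h1 : ((s * (I.k * I.D) + t) * 3 + y) / 3 = s * (I.k * I.D) + t := by omega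
    have h2 : ((s * (I.k * I.D) + t) * 3 + y) % 3 = y := by omega
    have h3 : (s * (I.k * I.D) + t) / (I.k * I.D) = s := by
      rw [add_comm, Nat.add_mul_div_right _ _ (by omega), Nat.div_eq_of_lt ht, zero_add]
    have h4 : (s * (I.k * I.D) + t) % (I.k * I.D) = t := by
      rw [add_comm, Nat.add_mul_mod_self_right, Nat.mod_eq_of_lt ht]
    obtain ⟨i, -, r, -, a, b⟩ := h ((s * (I.k * I.D) + t) * 3 + y) (by
      have : s * (I.k * I.D) + t < I.k * I.D * (I.k * I.D) := by nlinarith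
      simp only [fm]
      omega)
    simp only [fm, h1, h2, h3, h4] at a
    exact ⟨i, r, a.resolve_left (not_not.2 hn), b⟩
  have cover : ∀ p, p < I.k → ∃ a < I.D, z (2 * pw + (p * I.D + a)) = 1 := by
    intro p hp
    have hs : p * I.D < I.k * I.D := Nat.mul_lt_mul_of_pos_right hp hD
    obtain ⟨i, r, a, b⟩ := key 1 (by omega) (p * I.D) hs 0 (by omega) ⟨hs, Or.inr (Or.inl rfl)⟩
    rcases a with ⟨a, -⟩ | ⟨-, rfl, a, -, c⟩ | ⟨a, -⟩
    · omega
    · rw [Nat.mul_div_cancel _ hD] at c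
      have d := Nat.div_add_mod' (i - 2 * pw) I.D
      rw [c] at d
      refine ⟨(i - 2 * pw) % I.D, Nat.mod_lt _ hD, ?_⟩
      rw [d, show 2 * pw + (i - 2 * pw) = i by omega]
      have := hz i
      omega
    · omega
  choose! σ h1 h2 using cover
  have h3 : ∀ p < I.k, p * I.D + σ p < I.k * I.D := fun p hp => by
    have := h1 p hp
    nlinarith
  have h4 : ∀ p < I.k, (p * I.D + σ p) / I.D = p := fun p hp => by
    rw [add_comm, Nat.add_mul_div_right _ _ hD, Nat.div_eq_of_lt (h1 p hp), zero_add]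
  have h5 : ∀ p < I.k, (p * I.D + σ p) % I.D = σ p := fun p hp => by
    rw [add_comm, Nat.add_mul_mod_self_right, Nat.mod_eq_of_lt (h1 p hp)]
  refine ⟨σ, fun p hp => ⟨h1 p hp, ?_⟩, fun p hp q hq e => ?_⟩
  · by_contra hc
    have hu : uu lx pw z p < 2 := by
      unfold uu
      split_ifs
      · exact hz _
      · omega
    obtain ⟨i, r, a, b⟩ := key 2 (by omega) _ (h3 p hp) (uu lx pw z p) (by omega)
      ⟨h3 p hp, Or.inr (Or.inr ⟨rfl, hu, by rwa [h4 p hp, h5 p hp], by
        rw [h4 p hp]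
        unfold uu
        split_ifs with c
        · exact Or.inr c
        · exact Or.inl rfl⟩)⟩
    rcases a with ⟨a, -⟩ | ⟨a, -⟩ | ⟨-, ⟨rfl, rfl⟩ | ⟨a, c, rfl, rfl⟩⟩
    · omega
    · omega
    · exact b (h2 p hp).symm
    · rw [h4 p hp] at a c b
      exact b (if_pos ⟨a, c⟩)
  · by_contra hc
    obtain ⟨i, r, a, b⟩ := key 0 (by omega) _ (h3 p hp) _ (h3 q hq)
      ⟨h3 p hp, Or.inl ⟨rfl, by rwa [h4 p hp, h4 q hq], by
        rwa [h4 p hp, h4 q hq, h5 p hp, h5 q hq]⟩⟩
    rcases a with ⟨-, rfl, rfl | rfl⟩ | ⟨a, -⟩ | ⟨a, -⟩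
    · exact b (h2 p hp).symm
    · exact b (h2 q hq).symm
    · omega
    · omega

theorem fm_complete (hK : 2 ≤ I.k * I.D) {z : ℕ → ℕ} (hz : ∀ i, z i < 2) {σ : ℕ → ℕ}
    (h : I.Sol (uu lx pw z) σ) : ∃ z' : ℕ → ℕ, (∀ i < 2 * pw, z' i = z i) ∧ (∀ i, z' i < 2) ∧
      ∀ k < (fm I lx pw).n, (fm I lx pw).Sat k z' := by
  have hD : 0 < I.D := Nat.pos_of_ne_zero fun e => by simp [e] at hK
  let z' : ℕ → ℕ := fun i => if i < 2 * pw then z i else
    if σ ((i - 2 * pw) / I.D) = (i - 2 * pw) % I.D then 1 else 0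
  have h1 : ∀ i < 2 * pw, z' i = z i := fun i hi => if_pos hi
  have h2 : ∀ i, z' i < 2 := fun i => by
    simp only [z']
    split_ifs
    · exact hz i
    · omega
    · omega
  have h3 : ∀ s, z' (2 * pw + s) = 1 ↔ σ (s / I.D) = s % I.D := fun s => by
    simp [z']
  have hn : ∀ s < I.k * I.D, 2 * pw + s < (fm I lx pw).n := fun s hs => by
    simp only [fm]
    omega
  have hd : ∀ s < I.k * I.D, s / I.D < I.k := fun s hs => (Nat.div_lt_iff_lt_mul hD).2 hs
  refine ⟨z', h1, h2, fun k _ => ?_⟩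
  have ht : k / 3 % (I.k * I.D) < I.k * I.D := Nat.mod_lt _ (by omega)
  unfold Fm.Sat
  simp only [fm] at hn ⊢
  generalize k % 3 = y, k / 3 / (I.k * I.D) = s, k / 3 % (I.k * I.D) = t at ht ⊢
  by_cases c : nt I lx pw y s t
  · obtain ⟨hs, ⟨rfl, a, b⟩ | rfl | ⟨rfl, a, b, d⟩⟩ := c
    · by_cases e : z' (2 * pw + s) = 1
      · refine ⟨_, hn t ht, 1, by omega, Or.inr (Or.inl ⟨rfl, rfl, Or.inr rfl⟩), fun f => b ?_⟩
        rw [← (h3 s).1 e, ← (h3 t).1 f.symm]
        exact h.2 _ (hd s hs) _ (hd t ht) a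
      · exact ⟨_, hn s hs, 1, by omega, Or.inr (Or.inl ⟨rfl, rfl, Or.inl rfl⟩), Ne.symm e⟩
    · have a := (h.1 _ (hd s hs)).1
      have b : s / I.D * I.D + σ (s / I.D) < I.k * I.D := by
        have := hd s hs
        nlinarith
      have d : (s / I.D * I.D + σ (s / I.D)) / I.D = s / I.D := by
        rw [add_comm, Nat.add_mul_div_right _ _ hD, Nat.div_eq_of_lt a, zero_add]
      have e : (s / I.D * I.D + σ (s / I.D)) % I.D = σ (s / I.D) := by
        rw [add_comm, Nat.add_mul_mod_self_right, Nat.mod_eq_of_lt a]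
      refine ⟨_, hn _ b, 0, by omega, Or.inr (Or.inr (Or.inl ⟨rfl, rfl, by omega, by omega, by
        rw [Nat.add_sub_cancel_left, d]⟩)), ?_⟩
      rw [(h3 _).2 (by rw [d, e])]
      omega
    · by_cases e : z' (2 * pw + s) = 1
      · have f := (h.1 _ (hd s hs)).2
        rw [(h3 s).1 e] at f
        have g : t ≠ uu lx pw z (s / I.D) := fun g => b (g ▸ f)
        by_cases l : lx ≤ s / I.D ∧ s / I.D < lx + 2 * pw
        · refine ⟨s / I.D - lx, by omega, t, a,
            Or.inr (Or.inr (Or.inr ⟨rfl, Or.inr ⟨l.1, l.2, rfl, rfl⟩⟩)), ?_⟩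
          rw [h1 _ (by omega)]
          rwa [uu, if_pos l] at g
        · rw [uu, if_neg l] at g
          exact absurd (d.resolve_right l) g
      · exact ⟨_, hn s hs, 1, by omega, Or.inr (Or.inr (Or.inr ⟨rfl, Or.inl ⟨rfl, rfl⟩⟩)),
          Ne.symm e⟩
  · have := h2 0
    exact ⟨0, by omega, 1 - z' 0, by omega, Or.inl c, by omega⟩

end Formula

theorem pt_fm {α : Type} [Enc α] {I : α → Inst} {lx pw : α → ℕ} (hk : PT fun a => (I a).k)
    (hk' : PS fun a => (I a).k) (hD : PT fun a => (I a).D) (hD' : PS fun a => (I a).D)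
    (hE : PTP fun y : α × ℕ × ℕ × ℕ × ℕ => (I y.1).E y.2.1 y.2.2.1 y.2.2.2.1 y.2.2.2.2)
    (hA : PTP fun y : α × ℕ × ℕ × ℕ => (I y.1).A y.2.1 y.2.2.1 y.2.2.2)
    (hl : PT lx) (hp : PT pw) (hp' : PS pw) : PT fun a => (fm (I a) (lx a) (pw a)).ch.out := by
  refine Fm.pt_out (F := fun a => fm (I a) (lx a) (pw a)) (by simp only [fm]; fun_prop)
    ((((PB.const 3).mul ((hk'.mul hD').mul (hk'.mul hD'))).add ((PB.const 2).mul hp')).add
      (hk'.mul hD')) (PTP.and (PTP.lt (by fun_prop) (by fun_prop))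
      (PTP.eq (by fun_prop) (by fun_prop))) ?_
  have h1 : PT fun y : α × ℕ × ℕ × ℕ => (I y.1).k := hk.comp (by fun_prop)
  have h2 : PT fun y : α × ℕ × ℕ × ℕ => (I y.1).D := hD.comp (by fun_prop)
  have h3 := hE.comp (f := fun y : α × ℕ × ℕ × ℕ => (y.1,
    y.2.1 / 3 / ((I y.1).k * (I y.1).D) / (I y.1).D,
    y.2.1 / 3 / ((I y.1).k * (I y.1).D) % (I y.1).D,
    y.2.1 / 3 % ((I y.1).k * (I y.1).D) / (I y.1).D,
    y.2.1 / 3 % ((I y.1).k * (I y.1).D) % (I y.1).D)) (by fun_prop)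
  have h4 := hA.comp (f := fun y : α × ℕ × ℕ × ℕ => (y.1,
    y.2.1 / 3 / ((I y.1).k * (I y.1).D) / (I y.1).D,
    y.2.1 / 3 % ((I y.1).k * (I y.1).D),
    y.2.1 / 3 / ((I y.1).k * (I y.1).D) % (I y.1).D)) (by fun_prop)
  simp only [fm, nt, lit]
  repeat' first
    | exact h3
    | exact h4
    | apply PTP.and
    | apply PTP.or
    | (apply PTP.eq <;> fun_prop)
    | (apply PTP.lt <;> fun_prop)
    | (apply PTP.le <;> fun_prop)
    | apply PTP.not

/-- The negated verifier reading the first bits only. -/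
def nver (V : List Bool → Bool) (P : Polynomial ℕ) (z : List Bool) : Bool :=
  !V (pair (unp1 z) ((unp2 z).take (P.eval (unp1 z).length)))

theorem pt_nver {V : List Bool → Bool} (hV : PT V) (P : Polynomial ℕ) : PT (nver V P) := by
  have h1 : PT unp1 := pt_unp1 PT.id
  have h2 : PT unp2 := pt_unp2 PT.id
  have hp : PT fun z : List Bool => P.eval (unp1 z).length := pt_eval _ (PT.length h1)
  exact PT.not (hV.comp (Par.pt_pair h1 (PT.take hp h2)))

theorem hard (L : Set (List Bool)) (hL : InAP L) :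
    ∃ f : List Bool → List Bool, Nonempty (TM2ComputableInPolyTime id id f) ∧
      ∀ x, (∃ (N : ℕ) (H : SimpleGraph (Fin N)) (c : Fin N → Bool), f x = code H c ∧
        H.Colorable 2 ∧ ∀ v, (H.neighborSet v).ncard ≤ 6) ∧ (x ∈ L ↔ f x ∈ Lang) := by
  obtain ⟨V, P, ⟨h⟩, hV⟩ := hL
  have hV' : PT (nver V P) := pt_nver (Pool.Agent.Lib.Helper33.Sim.pt_of_tm_bool h) P
  obtain ⟨h'⟩ := PT.computableInPolyTime id Computability.encodeBool (nver V P)
    (F := fun z => [nver V P z]) (PT.cons hV' (PT.const [])) fun _ => rfl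
  obtain ⟨q, hqP, hd, hc, hq⟩ := exists_par2 h' P
  have hpt : PT fun x => (fm (q.inst x) (Par2.lx x) (q.pw x)).ch.out :=
    pt_fm (q.pt_k PT.id) (q.ps_k PT.id) (PT.const _) (PB.const _)
      (q.ptp_agr (by fun_prop) (by fun_prop) (by fun_prop) (by fun_prop) (by fun_prop))
      (PTP.and (q.ptp_al hd hc (by fun_prop) (by fun_prop) (by fun_prop) (by fun_prop))
        (q.ptp_agr (by fun_prop) (by fun_prop) (by fun_prop) (by fun_prop) (by fun_prop)))
      (Par2.pt_lx PT.id) (q.pt_pw PT.id) (q.ps_pw PT.id)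
  refine ⟨fun x => (fm (q.inst x) (Par2.lx x) (q.pw x)).ch.out,
    PT.computableInPolyTime id id _ hpt fun _ => rfl, fun x =>
    ⟨⟨_, _, _, Ch.out_eq _, Ch.colorable, Ch.deg_le (Fm.nbrs _)⟩, ?_⟩⟩
  dsimp only
  have hpw : q.pw x = P.eval x.length := by rw [Par2.pw, hqP]
  have hK : 2 ≤ (q.inst x).k * (q.inst x).D := by
    have h1 : 2 ≤ (q.inst x).k := by
      change 2 ≤ q.k x
      unfold Par2.k
      omega
    have h2 : 0 < (q.inst x).D := pow_pos hd _
    nlinarith
  generalize hF : fm (q.inst x) (Par2.lx x) (q.pw x) = F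
  have hn : F.n = 3 * ((q.inst x).k * (q.inst x).D * ((q.inst x).k * (q.inst x).D)) +
    2 * q.pw x + (q.inst x).k * (q.inst x).D := by rw [← hF]; rfl
  have ho : ∀ i, F.own i ↔ i < q.pw x ∧ i % 2 = 0 := by rw [← hF]; exact fun _ => Iff.rfl
  have key : ∀ (z : ℕ → ℕ) (w : List Bool), w.length = q.pw x →
      (∀ i < q.pw x, z i = (w.getD i false).toNat) →
      ((∃ σ, (q.inst x).Sol (uu (Par2.lx x) (q.pw x) z) σ) ↔ ¬ V (pair x w) = true) := by
    intro z w hw e
    have he : ((List.range (2 * q.pw x)).map fun i => decide (z i = 1)).length = 2 * q.pw x := by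
      simp
    rw [hq x _ _ he fun i hi => by simp [uu, List.getD_eq_getElem?_getD, hi]]
    have : ∀ w', nver V P (pair x (((List.range (2 * q.pw x)).map fun i => decide (z i = 1)) ++
        w')) = !V (pair x w) := by
      intro w'
      simp only [nver, unp1_pair, unp2_pair, ← hpw]
      congr 3
      rw [List.take_append_of_le_length (by omega)]
      refine List.ext_getElem (by simp; omega) fun i a b => ?_
      have := e i (by omega)
      rw [List.getD_eq_getElem _ _ b] at this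
      simp only [List.getElem_take, List.getElem_map, List.getElem_range, this]
      cases w[i] <;> simp
    simp only [this]
    exact ⟨fun ⟨_, _, a⟩ => by simpa using a, fun a => ⟨[], by simp, by simpa using a⟩⟩
  have main : F.QB F.n 0 (fun _ => 0) ↔ ¬ Alt (fun w => V (pair x w) = true) (q.pw x) [] := by
    have := Fm.QB_alt (F := F) (P := fun w => V (pair x w) = true) (pw := q.pw x)
      (R := F.n - q.pw x) (fun i hi => by simp [ho, hi]) (fun z w hz hw e => by
        rw [Fm.QB_ex _ _ _ (by omega) (fun i hi a => by have := (ho i).1 a; omega) hz, ← hF]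
        constructor
        · rintro ⟨z', a, b, c⟩
          exact (key z' w hw fun i hi => (a i hi).trans (e i hi)).1 (fm_sound hK b c)
        · intro a
          obtain ⟨σ, b⟩ := (key z w hw e).2 a
          obtain ⟨z', c, d⟩ := fm_complete hK hz b
          exact ⟨z', fun i hi => c i (by omega), d⟩) (q.pw x) [] (fun _ => 0) (by simp)
      (by simp) (by simp)
    rwa [show F.n - q.pw x + q.pw x = F.n by omega] at this
  rw [hV, ← hpw, Ch.out_eq, code_mem]
  rcases F.game (by omega) (fun _ => 0) with ⟨a, b⟩ | ⟨a, b⟩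
  · exact iff_of_true (not_not.1 (mt main.2 b)) (Ch.res_H Fm.ok a)
  · exact iff_of_false (main.1 b) (Ch.res_H Fm.ok a).excl

end Pool.Agent.P.MP_6e435d_co.G
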