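import Pool.Agent.P.MP_6e435d_co.G.Hard
import Pool.Agent.P.MP_5d374e_co.S2.Mem

/-!
Membership in alternating polynomial time.
-/

set_option autoImplicit false
set_option linter.dupNamespace false

namespace Pool.Agent.P.MP_6e435d_co.G

open Pool.Agent.P.MP_ba7db8_lc Pool.Agent.Lib.Helper47 Pool.Agent.P.MP_5d374e_co.S2 Turing

theorem alt_const {P : List Bool → Prop} {Q : Prop} (m : ℕ) : ∀ w₀ : List Bool,
    (∀ w : List Bool, w.length = m → (P (w₀ ++ w) ↔ Q)) → (Alt P m w₀ ↔ Q) := by
  induction m with
  | zero => intro w₀ h; simpa [Alt] using h [] rfl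
  | succ m ih =>
    intro w₀ h
    have : ∀ b, Alt P m (w₀ ++ [b]) ↔ Q := fun b => ih _ fun w hw => by
      rw [List.append_assoc]
      exact h _ (by simp [hw])
    simp [Alt, this]

/-- The number of ones among the bits of a block chosen by the player `b`. -/
def ones (b : Bool) (n : ℕ) (u : List Bool) : ℕ :=
  (List.range n).countP fun i => u.getD (2 * i + (!b).toNat) false

theorem ones_succ (b : Bool) (n : ℕ) (x y : Bool) (u : List Bool) :
    ones b (n + 1) (x :: y :: u) = (if b then x else y).toNat + ones b n u := by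
  unfold ones
  rw [List.range_succ_eq_map, List.countP_cons, List.countP_map, add_comm]
  congr 1
  · cases b <;> cases x <;> cases y <;> simp
  · refine List.countP_congr fun i _ => ?_
    simp only [Function.comp, Nat.succ_eq_add_one]
    rw [show 2 * (i + 1) + (!b).toNat = 2 * i + (!b).toNat + 1 + 1 by omega, List.getD_cons_succ,
      List.getD_cons_succ]

theorem alt_block {P : List Bool → Prop} (b : Bool) (m n : ℕ) : ∀ (w₀ : List Bool) (X : ℕ → Prop),
    w₀.length % 2 = 0 →
    (∀ u : List Bool, u.length = 2 * n → (Alt P m (w₀ ++ u) ↔ X (ones b n u))) →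
    (Alt P (m + 2 * n) w₀ ↔ if b then ∃ c ≤ n, X c else ∀ c ≤ n, X c) := by
  induction n with
  | zero =>
    intro w₀ X _ h
    have := h [] rfl
    cases b <;> simpa [ones] using this
  | succ n ih =>
    intro w₀ X h0 h
    have h1 : ∀ x y, Alt P (m + 2 * n) (w₀ ++ [x] ++ [y]) ↔
        if b then ∃ c ≤ n, X ((if b then x else y).toNat + c)
        else ∀ c ≤ n, X ((if b then x else y).toNat + c) := fun x y =>
      ih _ (fun c => X ((if b then x else y).toNat + c)) (by simp; omega) fun u hu => by
        rw [← ones_succ, ← h _ (by simp; omega)]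
        simp
    have h2 : ∀ x, ¬ (w₀ ++ [x]).length % 2 = 0 := fun x => by simp; omega
    rw [show m + 2 * (n + 1) = m + 2 * n + 1 + 1 by omega]
    simp only [Alt, h0, h2, if_true, if_false, h1]
    cases b
    · simp only [Bool.false_eq_true, if_false, exists_const, Bool.forall_bool, Bool.toNat_false,
        Bool.toNat_true, zero_add]
      refine ⟨fun a c hc => ?_, fun a => ⟨fun c hc => a c (by omega), fun c hc => a _ (by omega)⟩⟩
      by_cases e : c ≤ n
      · exact a.1 c e
      · have := a.2 n le_rfl
        rwa [show 1 + n = c by omega] at this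
    · simp only [if_true, forall_const, Bool.exists_bool, Bool.toNat_false, Bool.toNat_true,
        zero_add]
      refine ⟨?_, fun ⟨c, hc, a⟩ => ?_⟩
      · rintro (⟨c, hc, a⟩ | ⟨c, hc, a⟩)
        · exact ⟨c, by omega, a⟩
        · exact ⟨_, by omega, a⟩
      · by_cases e : c ≤ n
        · exact Or.inl ⟨c, e, a⟩
        · exact Or.inr ⟨n, le_rfl, by rwa [show 1 + n = c by omega]⟩

/-- The move with number `m` is legal. -/
def legal (A : List Bool) (l : List (Option Bool)) (b : Bool) (m : ℕ) : Bool :=
  Nat.blt (m / l.length) l.length && tb A l.length (m / l.length) (m % l.length) &&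
    (l.getD (m / l.length) none == some b) && (l.getD (m % l.length) none == some (!b))

/-- The move with number `m`. -/
def move (l : List (Option Bool)) (b : Bool) (m : ℕ) : List (Option Bool) :=
  (l.set (m / l.length) none).set (m % l.length) (some b)

/-- The play coded by a word; the value tells whether Left wins. -/
def sim (A : List Bool) (n : ℕ) : ℕ → List (Option Bool) → Bool → List Bool → Bool
  | 0, _, _, _ => false
  | R + 1, l, b, w => if legal A l b (ones b n (w.take (2 * n))) = true then
      sim A n R (move l b (ones b n (w.take (2 * n)))) (!b) (w.drop (2 * n)) else !b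

/-- One round of the simulation. -/
def step (A : List Bool) (n : ℕ) (s : List (Option Bool) × Bool × List Bool × Option Bool) :
    List (Option Bool) × Bool × List Bool × Option Bool :=
  if s.2.2.2.isSome = true then s else
    if legal A s.1 s.2.1 (ones s.2.1 n (s.2.2.1.take (2 * n))) = true then
      (move s.1 s.2.1 (ones s.2.1 n (s.2.2.1.take (2 * n))), !s.2.1, s.2.2.1.drop (2 * n), none)
    else (s.1, s.2.1, s.2.2.1, some (!s.2.1))

theorem step_iter (A : List Bool) (n R : ℕ) : ∀ (l : List (Option Bool)) (b : Bool) (w : List Bool),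
    ((step A n)^[R] (l, b, w, none)).2.2.2.getD false = sim A n R l b w := by
  induction R with
  | zero => intro l b w; rfl
  | succ R ih =>
    intro l b w
    rw [Function.iterate_succ_apply, sim, step]
    simp only [Option.isSome_none, Bool.false_eq_true, if_false]
    split_ifs
    · exact ih _ _ _
    · rw [Function.iterate_fixed (by simp [step])]
      rfl

section PT

variable {α : Type} [Enc α]

theorem pt_ones {b : α → Bool} {n : α → ℕ} {u : α → List Bool} (hb : PT b) (hn : PT n)
    (hn' : PS n) (hu : PT u) : PT fun a => ones (b a) (n a) (u a) :=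
  PT.countP (g := fun a i => (u a).getD (2 * i + (!b a).toNat) false) (by fun_prop)
    (PT.range hn hn')

@[fun_prop] theorem pt_legal {A : α → List Bool} {l : α → List (Option Bool)} {b : α → Bool}
    {m : α → ℕ} (hA : PT A) (hl : PT l) (hb : PT b) (hm : PT m) :
    PT fun a => legal (A a) (l a) (b a) (m a) := by
  unfold legal
  fun_prop

@[fun_prop] theorem pt_move {l : α → List (Option Bool)} {b : α → Bool}
    {m : α → ℕ} (hl : PT l) (hb : PT b) (hm : PT m) : PT fun a => move (l a) (b a) (m a) := by
  unfold move
  fun_prop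

theorem pt_sim {A w : α → List Bool} {n : α → ℕ} {l : α → List (Option Bool)} (hA : PT A)
    (hn : PT n) (hn' : PS n) (hl : PT l) (hw : PT w) :
    PT fun a => sim (A a) (n a) (n a) (l a) true (w a) := by
  have h1 : PT fun p : α × List (Option Bool) × Bool × List Bool × Option Bool =>
      ones p.2.2.1 (n p.1) (p.2.2.2.1.take (2 * n p.1)) :=
    pt_ones (by fun_prop) (by fun_prop) (ps_fst hn') (by fun_prop)
  have h2 : PT fun p : α × List (Option Bool) × Bool × List Bool × Option Bool =>
      step (A p.1) (n p.1) p.2 := by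
    unfold step
    fun_prop
  have h3 := PT.iterateN (f := fun a => step (A a) (n a)) (s := fun a => (l a, true, w a, none))
    h2 hn hn' (by fun_prop)
    (fun a t => t.1.length = (l a).length ∧ t.2.2.1.length ≤ (w a).length)
    (fun a => ⟨rfl, le_rfl⟩) (fun a t ht => by
      unfold step
      split_ifs
      · exact ht
      · exact ⟨by simp [move, ht.1], by simp; omega⟩
      · exact ht)
    (fun a => (l a).length * 6 + 4 * (w a).length + 13)
    ((((ps_length hl).mul (PB.const 6)).add ((PB.const 4).mul (ps_length hw))).add (PB.const 13))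
    (fun a t ht => by
      have o : ∀ x : Option Bool, size x ≤ 5 := by
        rintro (_ | x)
        · simp
        · have := size_bool x
          simp
          omega
      have a1 := size_list_le (l := t.1) (B := 5) fun x _ => o x
      have a2 := size_bits_le t.2.2.1
      have a3 := size_bool t.2.1
      have a4 := o t.2.2.2
      rw [size_prod, size_prod, size_prod]
      rw [ht.1] at a1
      have := ht.2
      omega)
  exact (PT.optGetD (PT.snd (PT.snd (PT.snd h3))) (PT.const false)).of_eq fun a =>
    step_iter _ _ _ _ _ _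

end PT

section Game

variable {N : ℕ} {H : SimpleGraph (Fin N)}

theorem legal_iff (f : Fin N → Option Bool) (b : Bool) (m : ℕ) :
    legal (adjBits H) (List.ofFn f) b m = true ↔ ∃ u v : Fin N, m = u * N + v ∧ H.Adj u v ∧
      f u = some b ∧ f v = some (!b) := by
  have hg : ∀ u : Fin N, (List.ofFn f).getD u none = f u := fun u => by
    simp [List.getD_eq_getElem?_getD]
  simp only [legal, List.length_ofFn, Bool.and_eq_true, Nat.blt_eq, beq_iff_eq, tb]
  constructor
  · rintro ⟨⟨⟨a, c⟩, d⟩, e⟩
    have h0 : 0 < N := Nat.zero_lt_of_lt a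
    exact ⟨⟨m / N, a⟩, ⟨m % N, Nat.mod_lt _ h0⟩, (Nat.div_add_mod' m N).symm,
      (getD_adjBits H ⟨m / N, a⟩ ⟨m % N, Nat.mod_lt _ h0⟩).1 c, (hg ⟨m / N, a⟩).symm.trans d,
      (hg ⟨m % N, Nat.mod_lt _ h0⟩).symm.trans e⟩
  · rintro ⟨u, v, rfl, a, c, d⟩
    have h1 : (u * N + v) / N = u := by
      rw [add_comm, Nat.add_mul_div_right _ _ u.pos, Nat.div_eq_of_lt v.2, zero_add]
    have h2 : (u * N + v) % N = v := by
      rw [add_comm, Nat.add_mul_mod_self_right, Nat.mod_eq_of_lt v.2]
    rw [h1, h2, hg, hg]
    exact ⟨⟨⟨u.2, (getD_adjBits H u v).2 a⟩, c⟩, d⟩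

theorem move_eq {f : Fin N → Option Bool} {b : Bool} {u v : Fin N} (h : f u = some b) :
    move (List.ofFn f) b (u * N + v) = List.ofFn (mv f u v) := by
  have h1 : (u * N + v) / N = u := by
    rw [add_comm, Nat.add_mul_div_right _ _ u.pos, Nat.div_eq_of_lt v.2, zero_add]
  have h2 : (u * N + v) % N = v := by
    rw [add_comm, Nat.add_mul_mod_self_right, Nat.mod_eq_of_lt v.2]
  simp only [move, List.length_ofFn, h1, h2]
  refine List.ext_getElem (by simp) fun i a c => ?_
  simp only [List.getElem_set, List.getElem_ofFn, mv_apply, h, Fin.ext_iff, eq_comm]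

/-- The number of stones. -/
def stones (f : Fin N → Option Bool) : ℕ := (Finset.univ.filter fun v => f v ≠ none).card

theorem stones_mv {f : Fin N → Option Bool} {b : Bool} {u v : Fin N} (a : H.Adj u v)
    (hu : f u = some b) (hv : f v = some (!b)) : stones (mv f u v) < stones f := by
  refine Finset.card_lt_card ⟨fun w hw => ?_, fun hs => ?_⟩
  · simp only [Finset.mem_filter, Finset.mem_univ, true_and, mv_apply] at hw ⊢
    split_ifs at hw with c d
    · simp [c, hv]
    · simp at hw
    · exact hw
  · have := hs (Finset.mem_filter.2 ⟨Finset.mem_univ u, by simp [hu]⟩)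
    simp [mv_apply, a.ne] at this

theorem res_true {f : Fin N → Option Bool} {b : Bool} : Res H f b true ↔
    ∃ u v, H.Adj u v ∧ f u = some b ∧ f v = some (!b) ∧ Res H (mv f u v) (!b) false := by
  refine ⟨fun h => ?_, fun ⟨u, v, a, c, d, e⟩ => Res.win _ _ u v a c d e⟩
  cases h with
  | win _ _ u v a c d e => exact ⟨u, v, a, c, d, e⟩

theorem res_false {f : Fin N → Option Bool} {b : Bool} : Res H f b false ↔
    ∀ u v, H.Adj u v → f u = some b → f v = some (!b) → Res H (mv f u v) (!b) true := by
  refine ⟨fun h => ?_, Res.lose _ _⟩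
  cases h with
  | lose _ _ e => exact e

theorem alt_sim {P : List Bool → Prop} {n : ℕ} (hn : N * N ≤ n) (R : ℕ) :
    ∀ (f : Fin N → Option Bool) (b : Bool) (w₀ : List Bool), w₀.length % 2 = 0 → stones f < R →
    (∀ w : List Bool, w.length = R * (2 * n) →
      (P (w₀ ++ w) ↔ sim (adjBits H) n R (List.ofFn f) b w = true)) →
    (Alt P (R * (2 * n)) w₀ ↔ Res H f b b) := by
  induction R with
  | zero => intro f b w₀ _ h; omega
  | succ R ih =>
    intro f b w₀ h0 hs h
    rw [Nat.succ_mul, alt_block b _ n w₀ (fun c => (∀ u v : Fin N, c = u * N + v → H.Adj u v →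
      f u = some b → f v = some (!b) → Res H (mv f u v) (!b) (!b)) ∧
      (b = true → ∃ u v : Fin N, c = u * N + v ∧ H.Adj u v ∧ f u = some b ∧ f v = some (!b))) h0]
    · have hc : ∀ u v : Fin N, (u : ℕ) * N + v ≤ n := fun u v => by
        have := u.2
        have := v.2
        nlinarith
      cases b
      · simp only [Bool.false_eq_true, if_false, false_implies, and_true, res_false]
        exact ⟨fun a u v => a _ (hc u v) u v rfl, fun a c _ u v _ => a u v⟩
      · simp only [if_true, true_implies, res_true]
        constructor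
        · rintro ⟨c, -, a, u, v, d, e, g, l⟩
          exact ⟨u, v, e, g, l, a u v d e g l⟩
        · rintro ⟨u, v, e, g, l, a⟩
          refine ⟨_, hc u v, fun u' v' d _ _ _ => ?_, u, v, rfl, e, g, l⟩
          have h1 : (u : ℕ) = u' := by
            have := congrArg (· / N) d
            simp only [add_comm (_ * N), Nat.add_mul_div_right _ _ u.pos, Nat.div_eq_of_lt v.2,
              Nat.div_eq_of_lt v'.2, zero_add] at this
            exact this
          obtain rfl : u = u' := Fin.ext h1
          obtain rfl : v = v' := Fin.ext (by omega)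
          exact a
    · intro t ht
      have h1 : ∀ w : List Bool, w.length = R * (2 * n) → (P (w₀ ++ t ++ w) ↔
          (if legal (adjBits H) (List.ofFn f) b (ones b n t) = true then
            sim (adjBits H) n R (move (List.ofFn f) b (ones b n t)) (!b) w else !b) = true) := by
        intro w hw
        rw [List.append_assoc, h _ (by simp [ht, hw]; ring), sim, List.take_left' ht,
          List.drop_left' ht]
      by_cases c : legal (adjBits H) (List.ofFn f) b (ones b n t) = true
      · simp only [c, if_true] at h1
        obtain ⟨u, v, d, e, g, l⟩ := (legal_iff f b _).1 c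
        rw [d, move_eq g] at h1
        have := stones_mv e g l
        rw [ih (mv f u v) (!b) (w₀ ++ t) (by simp; omega) (by omega) h1]
        refine ⟨fun a => ⟨fun u' v' d' _ _ _ => ?_, fun _ => ⟨u, v, d, e, g, l⟩⟩,
          fun a => a.1 u v d e g l⟩
        rw [d] at d'
        have h1 : (u : ℕ) = u' := by
          have := congrArg (· / N) d'
          simp only [add_comm (_ * N), Nat.add_mul_div_right _ _ u.pos, Nat.div_eq_of_lt v.2,
            Nat.div_eq_of_lt v'.2, zero_add] at this
          exact this
        obtain rfl : u = u' := Fin.ext h1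
        obtain rfl : v = v' := Fin.ext (by omega)
        exact a
      · simp only [c, Bool.false_eq_true, if_false] at h1
        rw [alt_const _ _ h1]
        rw [legal_iff] at c
        refine ⟨fun a => ⟨fun u v d e g l => absurd ⟨u, v, d, e, g, l⟩ c, fun d => ?_⟩,
          fun a => ?_⟩
        · simp [d] at a
        · cases b
          · rfl
          · exact absurd (a.2 rfl) c

end Game

/-- Well-formed codes. -/
def Wf (x : List Bool) : Prop :=
  x = pair (unp1 x) (unp2 x) ∧ (unp2 x).length = (unp1 x).length * (unp1 x).length ∧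
    (∀ a < (unp1 x).length, ¬ tb (unp2 x) (unp1 x).length a a = true) ∧
    ∀ a < (unp1 x).length, ∀ b < (unp1 x).length, tb (unp2 x) (unp1 x).length a b = true →
      tb (unp2 x) (unp1 x).length b a = true

theorem ptp_Wf {α : Type} [Enc α] {x : α → List Bool} (hx : PT x) : PTP fun a => Wf (x a) := by
  have h1 := pt_unp1 hx
  have n0 := ps_length h1
  refine PTP.and (PTP.eq hx (Par.pt_pair h1 (pt_unp2 hx))) (PTP.and
    (PTP.eq (by fun_prop) (by fun_prop)) (PTP.and ?_ ?_))
  · exact PTP.ball (by fun_prop) n0 (PTP.eq (by fun_prop) (by fun_prop)).not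
  · exact PTP.ball (by fun_prop) n0 (PTP.ball (by fun_prop) (ps_fst n0)
      (PTP.imp (PTP.eq (by fun_prop) (by fun_prop)) (PTP.eq (by fun_prop) (by fun_prop))))

theorem wf_iff (x : List Bool) :
    Wf x ↔ ∃ (N : ℕ) (H : SimpleGraph (Fin N)) (c : Fin N → Bool), x = code H c := by
  constructor
  · rintro ⟨h0, h1, h3, h4⟩
    generalize unp1 x = c, unp2 x = A at *
    let H : SimpleGraph (Fin c.length) :=
      ⟨fun a b => tb A c.length a b = true, ⟨fun a b => h4 a a.2 b b.2⟩, ⟨fun a => h3 a a.2⟩⟩
    refine ⟨c.length, H, c.get, ?_⟩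
    rw [h0, code, List.ofFn_get]
    congr 1
    refine List.ext_getElem (by rw [h1, length_adjBits]) fun i a b => ?_
    have h2 : 0 < c.length := Nat.pos_of_ne_zero fun e => by simp [h1, e] at a
    have e : i / c.length < c.length := Nat.div_lt_of_lt_mul (h1 ▸ a)
    have d := getD_adjBits H ⟨i / c.length, e⟩ ⟨i % c.length, Nat.mod_lt _ h2⟩
    change _ ↔ A.getD (i / c.length * c.length + i % c.length) false = true at d
    simp only [Nat.div_add_mod'] at d
    rw [List.getD_eq_getElem _ _ a, List.getD_eq_getElem _ _ b] at d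
    exact Bool.eq_iff_iff.2 d.symm
  · rintro ⟨N, H, c, rfl⟩
    have hx : ∀ a b : Fin N, tb (adjBits H) N a b = true ↔ H.Adj a b := getD_adjBits H
    simp only [Wf, code, unp1_pair, unp2_pair, List.length_ofFn, length_adjBits, true_and]
    exact ⟨fun a ha e => H.irrefl ((hx ⟨a, ha⟩ ⟨a, ha⟩).1 e), fun a ha b hb e =>
      (hx ⟨b, hb⟩ ⟨a, ha⟩).2 ((hx ⟨a, ha⟩ ⟨b, hb⟩).1 e).symm⟩

theorem mem_ap : InAP Lang := by
  classical
  have h1 : PT fun z : List Bool => unp1 z := by fun_prop
  have h := PT.and (ptp_Wf h1).dec (pt_sim (A := fun z => unp2 (unp1 z)) (w := fun z => unp2 z)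
    (l := fun z => (unp1 (unp1 z)).map some) (by fun_prop) (PT.length h1) (ps_length h1)
    (PT.map (g := fun _ b => some b) (by fun_prop) (by fun_prop)) (by fun_prop))
  generalize hV : (fun z : List Bool => decide (Wf (unp1 z)) && sim (unp2 (unp1 z))
    (unp1 z).length (unp1 z).length ((unp1 (unp1 z)).map some) true (unp2 z)) = V at h
  have hV' : ∀ x w, V (pair x w) = true ↔
      Wf x ∧ sim (unp2 x) x.length x.length ((unp1 x).map some) true w = true := by
    intro x w
    simp only [← hV, unp1_pair, unp2_pair, Bool.and_eq_true, decide_eq_true_eq]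
  refine ⟨V, Polynomial.X * (2 * Polynomial.X), PT.computableInPolyTime id
    Computability.encodeBool V (F := fun z => [V z]) (PT.cons h (PT.const [])) fun _ => rfl,
    fun x => ?_⟩
  simp only [hV', Polynomial.eval_mul, Polynomial.eval_X, Polynomial.eval_ofNat]
  by_cases hx : Wf x
  · obtain ⟨N, H, c, rfl⟩ := (wf_iff x).1 hx
    have hl : (code H c).length = 2 * N + 1 + N * N := by
      have : ∀ l : List Bool, (l.flatMap fun b => [true, b]).length = 2 * l.length := fun l => by
        simp [List.length_flatMap, mul_comm]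
      simp only [code, pair, length_adjBits, List.length_append, List.length_cons, this,
        List.length_ofFn]
      omega
    rw [code_mem]
    refine (alt_sim (by omega) _ _ true [] rfl ?_ fun w _ => ?_).symm
    · have : stones (fun v => some (c v)) ≤ N := (Finset.card_le_univ _).trans (by simp)
      omega
    · simp only [hx, true_and, List.nil_append]
      simp only [code, unp1_pair, unp2_pair, List.map_ofFn]
      rfl
  · rw [alt_const (Q := False) _ _ fun w _ => by simp [hx]]
    exact iff_false_intro fun ⟨N, H, c, e, _⟩ => hx ((wf_iff x).2 ⟨N, H, c, e⟩)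

end Pool.Agent.P.MP_6e435d_co.G
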